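import Pool.Agent.Lib.MP_4eed4e_an_P.PBase

/-!
MP_4eed4e_an, project P, block G: perturbation of the vertices of a convex polygon.
-/

namespace Pool.Agent.MP4eed4eP

open Set Metric

/-- The homothety with centre `z` and ratio `t`. -/
def hom (z : P) (t : ℝ) (v : P) : P := z + t • (v - z)

theorem hom_hom {z : P} {s t : ℝ} (v : P) : hom z s (hom z t v) = hom z (s * t) v := by
  simp [hom, smul_smul]

theorem hom_one {z : P} (v : P) : hom z 1 v = v := by simp [hom]

theorem continuous_hom (z : P) (t : ℝ) : Continuous (hom z t) := by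
  unfold hom; fun_prop

/-- The homothety as a homeomorphism. -/
noncomputable def homH (z : P) (t : ℝ) (ht : t ≠ 0) : P ≃ₜ P where
  toFun := hom z t
  invFun := hom z t⁻¹
  left_inv v := by rw [hom_hom, inv_mul_cancel₀ ht, hom_one]
  right_inv v := by rw [hom_hom, mul_inv_cancel₀ ht, hom_one]
  continuous_toFun := continuous_hom z t
  continuous_invFun := continuous_hom z t⁻¹

theorem interior_hom_image (z : P) {t : ℝ} (ht : t ≠ 0) (S : Set P) :
    interior (hom z t '' S) = hom z t '' interior S :=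
  ((homH z t ht).image_interior S).symm

theorem hull_inner {n : ℕ} {q q' : Fin n → P} {z : P} {ρ ε : ℝ} (hρ : 0 < ρ)
    (hε : 0 ≤ ε) (hερ : ε ≤ ρ) (hz : ball z ρ ⊆ convexHull ℝ (range q'))
    (hq : ∀ i, dist (q i) (q' i) ≤ ε) :
    hom z (1 - ε / ρ) '' convexHull ℝ (range q') ⊆ convexHull ℝ (range q) := by
  rintro _ ⟨x, hx, rfl⟩
  by_contra hy
  have hcl : IsClosed (convexHull ℝ (range q)) :=
    (Set.finite_range q).isClosed_convexHull ℝ
  obtain ⟨f, u, hf1, hf2⟩ := geometric_hahn_banach_closed_point (convex_convexHull ℝ _) hcl hy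
  -- values of `f` on the hull of `q'`
  have hup : ∀ a ∈ convexHull ℝ (range q'), f a ≤ u + ‖f‖ * ε := by
    intro a ha
    have hc : Convex ℝ {a | f a ≤ u + ‖f‖ * ε} :=
      convex_halfSpace_le f.toLinearMap.isLinear _
    refine convexHull_min ?_ hc ha
    rintro _ ⟨i, rfl⟩
    have h1 := hf1 (q i) (subset_convexHull ℝ _ ⟨i, rfl⟩)
    have h2 : f (q' i) - f (q i) ≤ ‖f‖ * ε := by
      rw [← map_sub]
      refine le_trans (le_abs_self _) ?_
      refine le_trans (f.le_opNorm _) ?_
      gcongr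
      rw [← dist_eq_norm, dist_comm]; exact hq i
    show f (q' i) ≤ _
    linarith
  have hz2 : f z + ρ * ‖f‖ ≤ u + ‖f‖ * ε := by
    by_contra hcon
    push Not at hcon
    -- choose a vector of norm < ρ with `f v > u + ‖f‖ ε - f z`
    have h3 : (u + ‖f‖ * ε - f z) / ρ < ‖f‖ := by
      rw [div_lt_iff₀ hρ]; linarith
    have hnn : 0 ≤ (u + ‖f‖ * ε - f z) / ρ := by
      apply div_nonneg _ hρ.le
      have := hup z (hz (mem_ball_self hρ))
      linarith
    obtain ⟨v, hv1, hv2⟩ := f.exists_lt_apply_of_lt_opNorm h3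
    have hmain : ∀ w : P, ‖w‖ < 1 → f z + ρ * f w ≤ u + ‖f‖ * ε := by
      intro w hw
      have h4 : z + ρ • w ∈ ball z ρ := by
        rw [mem_ball, dist_eq_norm, add_sub_cancel_left, norm_smul, Real.norm_eq_abs,
          abs_of_pos hρ]
        nlinarith
      have := hup _ (hz h4)
      rw [map_add, map_smul, smul_eq_mul] at this
      exact this
    rw [div_lt_iff₀ hρ, Real.norm_eq_abs] at hv2
    rcases le_total 0 (f v) with h | h
    · rw [abs_of_nonneg h] at hv2
      have := hmain v hv1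
      linarith
    · rw [abs_of_nonpos h] at hv2
      have := hmain (-v) (by rwa [norm_neg])
      rw [map_neg] at this
      linarith
  have h5 : f (hom z (1 - ε / ρ) x) = (1 - ε / ρ) * f x + ε / ρ * f z := by
    simp only [hom, map_add, map_smul, map_sub, smul_eq_mul]; ring
  rw [h5] at hf2
  have h6 := hup x hx
  have hs0 : 0 ≤ ε / ρ := by positivity
  have hs1 : ε / ρ ≤ 1 := by rw [div_le_one hρ]; exact hερ
  have h7 : (1 - ε / ρ) * f x ≤ (1 - ε / ρ) * (u + ‖f‖ * ε) :=
    mul_le_mul_of_nonneg_left h6 (by linarith)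
  have h8 : ε / ρ * f z ≤ ε / ρ * (u + ‖f‖ * ε - ρ * ‖f‖) :=
    mul_le_mul_of_nonneg_left (by linarith) hs0
  have h9 : ε / ρ * (ρ * ‖f‖) = ε * ‖f‖ := by field_simp
  nlinarith

theorem hull_outer {n : ℕ} {q q' : Fin n → P} {z : P} {ρ ε : ℝ} (hρ : 0 < ρ)
    (hε : 0 ≤ ε) (hz : ball z ρ ⊆ convexHull ℝ (range q'))
    (hq : ∀ i, dist (q i) (q' i) ≤ ε) :
    convexHull ℝ (range q) ⊆ hom z (1 + ε / ρ) '' convexHull ℝ (range q') := by
  have hcl : IsClosed (convexHull ℝ (range q')) :=
    (Set.finite_range q').isClosed_convexHull ℝ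
  have hz' : closedBall z ρ ⊆ convexHull ℝ (range q') := by
    rw [← closure_ball z hρ.ne']
    exact closure_minimal hz hcl
  have hs0 : 0 ≤ ε / ρ := by positivity
  have hs1 : 0 < 1 + ε / ρ := by linarith
  apply convexHull_min
  · rintro _ ⟨i, rfl⟩
    refine ⟨hom z (1 + ε / ρ)⁻¹ (q i), ?_, ?_⟩
    · rcases hε.eq_or_lt with h0 | hεpos
      · have : q i = q' i := by
          have := hq i
          rw [← h0] at this
          exact dist_le_zero.1 this
        rw [← h0, this]
        simp only [zero_div, add_zero, inv_one, hom_one]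
        exact subset_convexHull ℝ _ ⟨i, rfl⟩
      · have hsp : 0 < ε / ρ := by positivity
        have hv : z + (ε / ρ)⁻¹ • (q i - q' i) ∈ convexHull ℝ (range q') := by
          apply hz'
          rw [mem_closedBall, dist_eq_norm, add_sub_cancel_left, norm_smul, norm_inv,
            Real.norm_eq_abs, abs_of_pos hsp, ← dist_eq_norm]
          rw [inv_mul_le_iff₀ hsp]
          have : ε / ρ * ρ = ε := by field_simp
          rw [this]; exact hq i
        have h1 := (convex_convexHull ℝ (range q'))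
          (subset_convexHull ℝ _ ⟨i, rfl⟩ : q' i ∈ convexHull ℝ (range q')) hv
          (inv_nonneg.2 hs1.le) (mul_nonneg hs0 (inv_nonneg.2 hs1.le))
          (by field_simp)
        have h2 : (1 + ε / ρ)⁻¹ • q' i + (ε / ρ * (1 + ε / ρ)⁻¹) •
            (z + (ε / ρ)⁻¹ • (q i - q' i)) = hom z (1 + ε / ρ)⁻¹ (q i) := by
          simp only [hom, smul_add, smul_sub, smul_smul]
          have h3 : ε / ρ * (1 + ε / ρ)⁻¹ * (ε / ρ)⁻¹ = (1 + ε / ρ)⁻¹ := by
            field_simp
          rw [h3]
          have h4 : ε / ρ * (1 + ε / ρ)⁻¹ = 1 - (1 + ε / ρ)⁻¹ := by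
            field_simp; ring
          rw [h4, sub_smul, one_smul]
          abel
        rw [h2] at h1
        exact h1
    · rw [hom_hom, mul_inv_cancel₀ hs1.ne', hom_one]
  · have : hom z (1 + ε / ρ) '' convexHull ℝ (range q') =
        (fun y => (z - (1 + ε / ρ) • z) + y) ''
          ((fun y => (1 + ε / ρ) • y) '' convexHull ℝ (range q')) := by
      rw [Set.image_image]
      apply Set.image_congr
      intro v _
      simp only [hom, smul_sub]; abel
    rw [this]
    exact ((convex_convexHull ℝ _).smul _).translate _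

end Pool.Agent.MP4eed4eP
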