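import Pool.Agent.Lib.MP_4eed4e_an_PG.GBump
import Pool.Agent.Lib.MP_4eed4e_an_PG.GHull

/-!
MP_4eed4e_an, project P, block G: the min-max values of close polygons are close.
-/

namespace Pool.Agent.MP4eed4eP.PG

open Set Filter Topology MeasureTheory Metric

/-- Every element of `RS D (k+1)` is bounded below by a Poincare constant. -/
theorem RS_lower {D : Set P} {k : ℕ} {r : ℝ} (hr : r ∈ RS D (k + 1)) :
    0 ≤ r ∧ ∀ w : ℝ, 0 < w → InStrip D w → 1 / w ^ 2 ≤ r := by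
  obtain ⟨V, hV, hVf⟩ := hr
  obtain ⟨f, hf, hf0⟩ : ∃ f ∈ V, f ≠ 0 := by
    by_contra hcon
    push Not at hcon
    have h1 : V = ⊥ := by
      rw [Submodule.eq_bot_iff]; exact hcon
    rw [h1, finrank_bot] at hV
    omega
  obtain ⟨hL, hle⟩ := hVf f hf
  have hpos := LipC.l2_pos hL hf0
  constructor
  · by_contra hcon
    push Not at hcon
    have h1 := en_nonneg f
    have h2 : r * l2 f < 0 := mul_neg_of_neg_of_pos hcon hpos
    linarith
  · intro w hw hs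
    have h1 := poincare hs hL
    rw [div_le_iff₀ (by positivity)]
    have h2 : l2 f ≤ w ^ 2 * (r * l2 f) := by
      refine le_trans h1 ?_
      gcongr
    by_contra hcon
    push Not at hcon
    have h3 : r * w ^ 2 * l2 f < 1 * l2 f := by gcongr
    nlinarith

theorem RS_bddBelow (D : Set P) (k : ℕ) : BddBelow (RS D (k + 1)) :=
  ⟨0, fun _ hr => (RS_lower hr).1⟩

theorem hasBalls_of_open {D : Set P} (hD : IsOpen D) (hne : D.Nonempty) (k : ℕ) :
    ∃ ρ : ℝ, 0 < ρ ∧ HasBalls D k ρ := by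
  obtain ⟨x, hx⟩ := hne
  obtain ⟨ε, hε, hball⟩ := Metric.isOpen_iff.1 hD x hx
  set ρ := ε / (3 * (k + 1) + 1) with hρ
  have hk : (0 : ℝ) ≤ k := by positivity
  have hρ0 : 0 < ρ := by positivity
  have hρε : ρ * (3 * (k + 1) + 1) = ε := by rw [hρ]; field_simp
  refine ⟨ρ, hρ0, fun i => (x.1 + 3 * ρ * (i : ℕ), x.2), fun i => ?_, fun i j hij => ?_⟩
  · refine Subset.trans ?_ hball
    intro v hv
    rw [mem_closedBall_prod] at hv
    have hi : ((i : ℕ) : ℝ) ≤ k := by exact_mod_cast i.2.le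
    have hi0 : (0 : ℝ) ≤ ((i : ℕ) : ℝ) := by positivity
    have h1 := abs_le.1 hv.1
    have h2 := abs_le.1 hv.2
    simp only at h1 h2
    rw [mem_ball, Prod.dist_eq, max_lt_iff, Real.dist_eq, Real.dist_eq]
    have h3 : 3 * ρ * ((i : ℕ) : ℝ) ≤ 3 * ρ * k := by gcongr
    have h4 : 0 ≤ 3 * ρ * ((i : ℕ) : ℝ) := by positivity
    constructor
    · rw [abs_lt]; constructor <;> nlinarith
    · rw [abs_lt]; constructor <;> nlinarith
  · rw [Set.disjoint_left]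
    intro v hv hv'
    rw [mem_closedBall_prod] at hv hv'
    have h1 := abs_le.1 hv.1
    have h2 := abs_le.1 hv'.1
    simp only at h1 h2
    have hne : (i : ℕ) ≠ (j : ℕ) := fun h => hij (Fin.ext h)
    rcases Nat.lt_or_gt_of_ne hne with h | h
    · have h3 : ((i : ℕ) : ℝ) + 1 ≤ ((j : ℕ) : ℝ) := by exact_mod_cast h
      nlinarith
    · have h3 : ((j : ℕ) : ℝ) + 1 ≤ ((i : ℕ) : ℝ) := by exact_mod_cast h
      nlinarith

theorem RS_nonempty {D : Set P} (hD : IsOpen D) (hne : D.Nonempty) (k : ℕ) :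
    (RS D k).Nonempty := by
  obtain ⟨ρ, hρ, h⟩ := hasBalls_of_open hD hne k
  exact ⟨_, RS_of_balls hρ h⟩

theorem RS_mono {D D' : Set P} (h : D ⊆ D') (k : ℕ) : RS D k ⊆ RS D' k := by
  rintro r ⟨V, hV, hVf⟩
  refine ⟨V, hV, fun f hf => ?_⟩
  obtain ⟨⟨h1, h2, h3⟩, h4⟩ := hVf f hf
  exact ⟨⟨h1, h2, h3.trans h⟩, h4⟩

/-- Monotonicity in the domain. -/
theorem lamL_mono {D D' : Set P} (hD : IsOpen D) (hne : D.Nonempty) (h : D ⊆ D') (k : ℕ) :
    lamL D' k ≤ lamL D k := by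
  rcases Nat.eq_zero_or_pos k with h0 | h0
  · subst h0; rw [lamL_zero, lamL_zero]
  · obtain ⟨j, rfl⟩ : ∃ j, k = j + 1 := ⟨k - 1, by omega⟩
    exact csInf_le_csInf (RS_bddBelow D' j) (RS_nonempty hD hne _) (RS_mono h _)

theorem lamL_nonneg (D : Set P) (k : ℕ) : 0 ≤ lamL D k := by
  rcases Nat.eq_zero_or_pos k with h0 | h0
  · subst h0; rw [lamL_zero]
  · obtain ⟨j, rfl⟩ : ∃ j, k = j + 1 := ⟨k - 1, by omega⟩
    exact Real.sInf_nonneg fun r hr => (RS_lower hr).1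

theorem lamL_strip {D : Set P} (hD : IsOpen D) (hne : D.Nonempty) {w : ℝ} (hw : 0 < w)
    (hs : InStrip D w) (k : ℕ) : 1 / w ^ 2 ≤ lamL D (k + 1) :=
  le_csInf (RS_nonempty hD hne _) fun _ hr => (RS_lower hr).2 w hw hs

theorem lamL_balls {D : Set P} {k : ℕ} {ρ : ℝ} (hρ : 0 < ρ) (h : HasBalls D (k + 1) ρ) :
    lamL D (k + 1) ≤ 32 / ρ ^ 2 :=
  csInf_le (RS_bddBelow D k) (RS_of_balls hρ h)

theorem isOpen_Kp {n : ℕ} (q : Fin n → P) : IsOpen (Kp q) := isOpen_interior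

theorem hom_eq_cf (z : P) (t : ℝ) : hom z t = cf t 0 (z - t • z) := by
  funext v
  ext
  · simp only [hom, cf, Prod.fst_add, Prod.smul_fst, Prod.fst_sub, smul_eq_mul]; ring
  · simp only [hom, cf, Prod.snd_add, Prod.smul_snd, Prod.snd_sub, smul_eq_mul]; ring

theorem lamL_hom {z : P} {t : ℝ} (ht : 0 < t) (D : Set P) (k : ℕ) :
    lamL (hom z t '' D) k = (t ^ 2)⁻¹ * lamL D k := by
  rw [hom_eq_cf, lamL_cf (by positivity)]
  congr 2; ring

/-- Relative closeness of the eigenvalues of close polygons, uniformly in `k`. -/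
theorem lamL_close {n : ℕ} (q' : Fin n → P) (hne : (Kp q').Nonempty) :
    ∃ C δ : ℝ, 0 < C ∧ 0 < δ ∧ ∀ q : Fin n → P, ‖q - q'‖ ≤ δ → (Kp q).Nonempty ∧
      ∀ k, |lamL (Kp q) k - lamL (Kp q') k| ≤ C * ‖q - q'‖ * lamL (Kp q') k := by
  obtain ⟨z, hz⟩ := hne
  obtain ⟨ρ, hρ, hball⟩ := Metric.isOpen_iff.1 (isOpen_Kp q') z hz
  have hball' : ball z ρ ⊆ convexHull ℝ (range q') := hball.trans interior_subset
  refine ⟨6 / ρ, ρ / 2, by positivity, by positivity, fun q hq => ?_⟩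
  set ε := ‖q - q'‖ with hε
  have hε0 : 0 ≤ ε := norm_nonneg _
  set s := ε / ρ with hs
  have hs0 : 0 ≤ s := by positivity
  have hs1 : s ≤ 1 / 2 := by rw [hs, div_le_iff₀ hρ]; linarith
  have hqi : ∀ i, dist (q i) (q' i) ≤ ε := fun i => by
    rw [dist_eq_norm]
    exact norm_le_pi_norm (q - q') i
  have hin : hom z (1 - s) '' Kp q' ⊆ Kp q := by
    have h1 := hull_inner hρ hε0 (by linarith) hball' hqi
    unfold Kp
    rw [← interior_hom_image z (by linarith : (1 - s) ≠ 0)]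
    exact interior_mono h1
  have hout : Kp q ⊆ hom z (1 + s) '' Kp q' := by
    have h1 := hull_outer hρ hε0 hball' hqi
    unfold Kp
    rw [← interior_hom_image z (by linarith : (1 + s) ≠ 0)]
    exact interior_mono h1
  have hne' : (hom z (1 - s) '' Kp q').Nonempty := ⟨_, z, hz, rfl⟩
  have hneq : (Kp q).Nonempty := hne'.mono hin
  refine ⟨hneq, fun k => ?_⟩
  have hopen : IsOpen (hom z (1 - s) '' Kp q') := by
    unfold Kp
    rw [← interior_hom_image z (by linarith : (1 - s) ≠ 0)]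
    exact isOpen_interior
  have hup := lamL_mono hopen hne' hin k
  have hlo := lamL_mono (isOpen_Kp q) hneq hout k
  rw [lamL_hom (by linarith)] at hup hlo
  have hL := lamL_nonneg (Kp q') k
  set L := lamL (Kp q') k with hLdef
  have h1 : ((1 - s) ^ 2)⁻¹ ≤ 1 + 6 * s := by
    have h10 : 0 < 1 - s := by linarith
    rw [inv_le_iff_one_le_mul₀ (by positivity)]
    · nlinarith [mul_nonneg hs0 (mul_nonneg (by linarith : 0 ≤ 1 - 2 * s)
        (by linarith : 0 ≤ 4 - 3 * s))]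
  have h2 : 1 - 2 * s ≤ ((1 + s) ^ 2)⁻¹ := by
    rw [le_inv_comm₀' (by positivity)]
    nlinarith [mul_nonneg hs0 hs0, mul_nonneg (mul_nonneg hs0 hs0) hs0]
  have h3 : ((1 - s) ^ 2)⁻¹ * L ≤ (1 + 6 * s) * L := mul_le_mul_of_nonneg_right h1 hL
  have h4 : (1 - 2 * s) * L ≤ ((1 + s) ^ 2)⁻¹ * L := mul_le_mul_of_nonneg_right h2 hL
  have h5 : 6 / ρ * ε = 6 * s := by rw [hs]; ring
  rw [h5, abs_le]
  have h6 : 0 ≤ s * L := mul_nonneg hs0 hL
  constructor <;> nlinarith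
  where
    le_inv_comm₀' {a b : ℝ} (hb : 0 < b) : (a ≤ b⁻¹) = (a * b ≤ 1) := by
      rw [eq_iff_iff, ← one_div, le_div_iff₀ hb]

end Pool.Agent.MP4eed4eP.PG
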