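import Pool.Agent.Lib.MP_4eed4e_an_P.PBase

/-!
MP_4eed4e_an, project P, block G: the two planes, rigid motions.
-/

namespace Pool.Agent.MP4eed4eP.PG

open Set Filter Topology

theorem toP_ofP (v : P) : toP (ofP v) = v := by
  simp [toP, ofP]

theorem ofP_toP (x : E2) : ofP (toP x) = x := by
  ext i; fin_cases i <;> simp [toP, ofP]

theorem exists_toPL : ∃ e : E2 ≃L[ℝ] P, (∀ x, e x = toP x) ∧ ∀ v, e.symm v = ofP v := by
  refine ⟨LinearEquiv.toContinuousLinearEquiv
    { toFun := toP
      invFun := ofP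
      left_inv := ofP_toP
      right_inv := toP_ofP
      map_add' := fun x y => by simp [toP]
      map_smul' := fun a x => by simp [toP] }, fun x => rfl, fun v => rfl⟩

theorem image_KK {n : ℕ} (q : Fin n → E2) : toP '' KK q = Kp (fun i => toP (q i)) := by
  obtain ⟨e, he, _⟩ := exists_toPL
  have h1 : (toP : E2 → P) = e := by funext x; exact (he x).symm
  unfold KK Kp
  rw [h1]
  have h2 : e '' interior (convexHull ℝ (range q)) =
      interior (e '' convexHull ℝ (range q)) := e.toHomeomorph.image_interior _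
  rw [h2]
  have h3 : e '' convexHull ℝ (range q) = convexHull ℝ (e '' range q) :=
    LinearMap.image_convexHull (e : E2 →ₗ[ℝ] P) (range q)
  rw [h3, ← Set.range_comp]
  rfl

theorem convPos_iff {n : ℕ} (q : Fin n → E2) : ConvPos q ↔ ConvP (fun i => toP (q i)) := by
  obtain ⟨e, he, _⟩ := exists_toPL
  have h1 : (toP : E2 → P) = e := by funext x; exact (he x).symm
  unfold ConvPos ConvP
  refine forall_congr' fun i => not_congr ?_
  have h3 : convexHull ℝ ((fun i => toP (q i)) '' {j | j ≠ i}) =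
      e '' convexHull ℝ (q '' {j | j ≠ i}) := by
    rw [show e '' convexHull ℝ (q '' {j | j ≠ i}) = convexHull ℝ (e '' (q '' {j | j ≠ i})) from
      LinearMap.image_convexHull (e : E2 →ₗ[ℝ] P) _, Set.image_image, h1]
  rw [h3, h1]
  exact (e.injective.mem_set_image).symm

/-- The rotation of the Euclidean plane as a map. -/
theorem exists_isometry (θ : ℝ) (b : P) :
    ∃ φ : E2 ≃ᵢ E2, ∀ x, toP (φ x) = rig θ b (toP x) := by
  have hdist : ∀ x y : E2, dist x y = Real.sqrt ((x 0 - y 0) ^ 2 + (x 1 - y 1) ^ 2) := by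
    intro x y
    rw [EuclideanSpace.dist_eq, Fin.sum_univ_two, Real.dist_eq, Real.dist_eq, sq_abs, sq_abs]
  have hcs := Real.cos_sq_add_sin_sq θ
  refine ⟨⟨⟨fun x => ofP (rig θ b (toP x)),
    fun x => ofP (rig (-θ) (rig (-θ) 0 (-b)) (toP x)), ?_, ?_⟩, ?_⟩, fun x => toP_ofP _⟩
  · intro x
    simp only [toP_ofP]
    rw [← ofP_toP x]
    congr 1
    simp only [toP_ofP, rig, Real.cos_neg, Real.sin_neg, Prod.fst_neg, Prod.snd_neg,
      Prod.fst_zero, Prod.snd_zero]
    ext
    · simp only; linear_combination (toP x).1 * hcs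
    · simp only; linear_combination (toP x).2 * hcs
  · intro x
    simp only [toP_ofP]
    rw [← ofP_toP x]
    congr 1
    simp only [toP_ofP, rig, Real.cos_neg, Real.sin_neg, Prod.fst_neg, Prod.snd_neg,
      Prod.fst_zero, Prod.snd_zero]
    ext
    · simp only; linear_combination ((toP x).1 - b.1) * hcs
    · simp only; linear_combination ((toP x).2 - b.2) * hcs
  · refine Isometry.of_dist_eq fun x y => ?_
    rw [hdist, hdist]
    congr 1
    have e0 : ∀ z : E2, (ofP (rig θ b (toP z))) 0 =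
        Real.cos θ * z 0 - Real.sin θ * z 1 + b.1 := fun z => by simp [ofP, rig, toP]
    have e1 : ∀ z : E2, (ofP (rig θ b (toP z))) 1 =
        Real.sin θ * z 0 + Real.cos θ * z 1 + b.2 := fun z => by simp [ofP, rig, toP]
    simp only [e0, e1]
    linear_combination ((x 0 - y 0) ^ 2 + (x 1 - y 1) ^ 2) * hcs

end Pool.Agent.MP4eed4eP.PG
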