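import Pool.Agent.Lib.MP_4eed4e_an_PG.GNorm2

/-!
MP_4eed4e_an, project P, block G: the normal form is unique.
-/

namespace Pool.Agent.MP4eed4eP.PG

open Set Filter Topology

theorem Ccw_rig {n : ℕ} (q : Fin n → P) (θ : ℝ) (b : P) :
    Ccw (fun i => rig θ b (q i)) ↔ Ccw q := by
  unfold Ccw
  simp only [det2_rig]

theorem nX_rig {m : ℕ} (q : Fin (m + 3) → P) (θ : ℝ) (b w : P) :
    nX (fun i => rig θ b (q i)) (rig θ b w) = nX q w := by
  simp only [nX, det2_rig]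

theorem nY_rig {m : ℕ} (q : Fin (m + 3) → P) (θ : ℝ) (b w : P) :
    nY (fun i => rig θ b (q i)) (rig θ b w) = nY q w := by
  simp only [nY, det2_rig]

theorem nS_rig {m : ℕ} (q : Fin (m + 3) → P) (θ : ℝ) (b : P) :
    nS (fun i => rig θ b (q i)) = nS q := by
  have hcs := Real.cos_sq_add_sin_sq θ
  unfold nS
  congr 1
  simp only [rig]
  linear_combination (((q 0).1 - (q 1).1) ^ 2 + ((q 0).2 - (q 1).2) ^ 2) * hcs

theorem nE_rig {m : ℕ} (q : Fin (m + 3) → P) (θ : ℝ) (b : P) :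
    nE (fun i => rig θ b (q i)) = nE q := by
  unfold nE
  rw [nS_rig, det2_rig]

theorem nD_rig {m : ℕ} (q : Fin (m + 3) → P) (θ : ℝ) (b : P) :
    nD (fun i => rig θ b (q i)) = nD q := by
  have hcs := Real.cos_sq_add_sin_sq θ
  unfold nD
  rw [nS_rig]
  congr 1
  simp only [rig, Prod.fst_sub, Prod.snd_sub]
  linear_combination (((q 0).1 - (q 1).1) * ((q (Fin.last _)).1 - (q 1).1) +
    ((q 0).2 - (q 1).2) * ((q (Fin.last _)).2 - (q 1).2)) * hcs

theorem NF_rig_inv {m : ℕ} (q : Fin (m + 3) → P) (θ : ℝ) (b : P) :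
    NF (fun i => rig θ b (q i)) = NF q := by
  unfold NF
  simp only [nS_rig, nD_rig, nE_rig, nX_rig, nY_rig]

theorem normal_unique {m : ℕ} {c c' : Par m} (hc : c ∈ CM m) (hc' : c' ∈ CM m)
    {θ θ' : ℝ} {b b' : P} (he : ∀ i, rig θ b (poly c i) = rig θ' b' (poly c' i)) : c = c' := by
  have h1 := NF_rig_inv (poly c) θ b
  have h2 := NF_rig_inv (poly c') θ' b'
  have h3 : (fun i => rig θ b (poly c i)) = fun i => rig θ' b' (poly c' i) := funext he
  rw [NF_poly hc] at h1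
  rw [NF_poly hc'] at h2
  rw [← h1, ← h2, h3]

end Pool.Agent.MP4eed4eP.PG
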