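import Pool.Agent.Lib.MP_4eed4e_an_P.PBase

/-!
MP_4eed4e_an, project P, block G: an open convex set without vertical (horizontal) sections of
length `h` lies in a strip of width `h`.
-/

namespace Pool.Agent.MP4eed4eP

open Set Metric

/-- `D` is contained in a strip of width `w`. -/
def InStrip (D : Set P) (w : ℝ) : Prop :=
  ∃ a b c : ℝ, a ^ 2 + b ^ 2 = 1 ∧ ∀ v ∈ D, c ≤ a * v.1 + b * v.2 ∧ a * v.1 + b * v.2 ≤ c + w

theorem inStrip_of_dir {D : Set P} (hD : IsOpen D) (hc : Convex ℝ D) (hne : D.Nonempty)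
    {e : P} {h : ℝ} (he : e.1 ^ 2 + e.2 ^ 2 ≤ h ^ 2) (hh : 0 < h)
    (hno : ∀ v ∈ D, v + e ∉ D) : InStrip D h := by
  classical
  have hD2 : IsOpen ((fun v => v + e) '' D) := (Homeomorph.addRight e).isOpenMap D hD
  have hc2 : Convex ℝ ((fun v => v + e) '' D) := by
    have := hc.translate e
    have h2 : (fun v => v + e) '' D = (fun z => e + z) '' D := by
      ext x; constructor
      · rintro ⟨y, hy, rfl⟩; exact ⟨y, hy, by simp [add_comm]⟩
      · rintro ⟨y, hy, rfl⟩; exact ⟨y, hy, by simp [add_comm]⟩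
    rw [h2]; exact this
  have hdis : Disjoint D ((fun v => v + e) '' D) := by
    rw [Set.disjoint_left]
    rintro x hx ⟨y, hy, hxy⟩
    exact hno y hy (by rw [show y + e = x from hxy]; exact hx)
  obtain ⟨f, u, hf1, hf2⟩ := geometric_hahn_banach_open_open hc hD hc2 hD2 hdis
  have hlin : ∀ v : P, f v = f (1, 0) * v.1 + f (0, 1) * v.2 := by
    intro v
    have h1 : v = v.1 • ((1 : ℝ), (0 : ℝ)) + v.2 • ((0 : ℝ), (1 : ℝ)) := by
      ext <;> simp
    conv_lhs => rw [h1]
    rw [map_add, map_smul, map_smul]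
    simp only [smul_eq_mul]; ring
  set α := f (1, 0) with hα
  set β := f (0, 1) with hβ
  obtain ⟨v₀, hv₀⟩ := hne
  have h1 := hf1 v₀ hv₀
  have h2 := hf2 (v₀ + e) ⟨v₀, hv₀, rfl⟩
  have hfe : 0 < f e := by
    rw [map_add] at h2; linarith
  have hfe' : f e = α * e.1 + β * e.2 := hlin e
  have hN : 0 < α ^ 2 + β ^ 2 := by
    by_contra hcon
    have h3 : α ^ 2 + β ^ 2 = 0 := le_antisymm (not_lt.1 hcon) (by positivity)
    have h4 : α = 0 := by nlinarith [sq_nonneg α, sq_nonneg β]
    have h5 : β = 0 := by nlinarith [sq_nonneg α, sq_nonneg β]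
    rw [hfe', h4, h5] at hfe
    simp at hfe
  set N := Real.sqrt (α ^ 2 + β ^ 2) with hNdef
  have hNpos : 0 < N := Real.sqrt_pos.2 hN
  have hN2 : N ^ 2 = α ^ 2 + β ^ 2 := Real.sq_sqrt hN.le
  have hle : f e ≤ N * h := by
    have h6 : (f e) ^ 2 ≤ (N * h) ^ 2 := by
      rw [mul_pow, hN2, hfe']
      nlinarith [sq_nonneg (α * e.2 - β * e.1), mul_le_mul_of_nonneg_left he hN.le]
    exact le_trans (le_abs_self _) (abs_le_of_sq_le_sq h6 (by positivity))
  refine ⟨α / N, β / N, (u - f e) / N, ?_, ?_⟩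
  · rw [div_pow, div_pow, ← add_div, hN2]; exact div_self hN.ne'
  · intro v hv
    have h7 := hf1 v hv
    have h8 := hf2 (v + e) ⟨v, hv, rfl⟩
    rw [map_add] at h8
    have h9 : α / N * v.1 + β / N * v.2 = f v / N := by
      rw [hlin v]; field_simp
    rw [h9]
    constructor
    · gcongr; linarith
    · have h10 : u ≤ (u - f e) + N * h := by linarith
      calc f v / N ≤ ((u - f e) + N * h) / N := by gcongr; linarith
        _ = (u - f e) / N + h := by field_simp

/-- An open convex set which is in no strip of width `h` has a vertical section longer than `h`. -/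
theorem exists_vert_section {D : Set P} (hD : IsOpen D) (hc : Convex ℝ D)
    (hne : D.Nonempty) {h : ℝ} (hh : 0 < h) (hs : ¬ InStrip D h) :
    ∃ v ∈ D, (v.1, v.2 + h) ∈ D := by
  by_contra hcon
  push Not at hcon
  apply hs
  apply inStrip_of_dir hD hc hne (e := (0, h)) (by simp) hh
  intro v hv hv2
  refine hcon v hv ?_
  have h1 : v + (0, h) = (v.1, v.2 + h) := by ext <;> simp
  rwa [h1] at hv2

/-- An open convex set which is in no strip of width `h` has a horizontal section longer
than `h`. -/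
theorem exists_hor_section {D : Set P} (hD : IsOpen D) (hc : Convex ℝ D)
    (hne : D.Nonempty) {h : ℝ} (hh : 0 < h) (hs : ¬ InStrip D h) :
    ∃ v ∈ D, (v.1 + h, v.2) ∈ D := by
  by_contra hcon
  push Not at hcon
  apply hs
  apply inStrip_of_dir hD hc hne (e := (h, 0)) (by simp) hh
  intro v hv hv2
  refine hcon v hv ?_
  have h1 : v + (h, 0) = (v.1 + h, v.2) := by ext <;> simp
  rwa [h1] at hv2

end Pool.Agent.MP4eed4eP
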