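import Pool.Agent.Lib.MP_4eed4e_an_PG.GConf
import Pool.Agent.Lib.MP_4eed4e_an_PG.GSep

/-!
MP_4eed4e_an, project P, block G: the Poincare inequality in a strip.
-/

namespace Pool.Agent.MP4eed4eP.PG

open Set Filter Topology MeasureTheory

variable {D : Set P} {f : P → ℝ}

theorem LipC.cont (hf : LipC D f) : Continuous f := by
  obtain ⟨⟨K, hK⟩, _⟩ := hf
  exact hK.continuous

theorem LipC.integrable_sq (hf : LipC D f) : Integrable (fun x => f x ^ 2) := by
  have h1 : Continuous (fun x => f x ^ 2) := (LipC.cont hf).pow 2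
  apply h1.integrable_of_hasCompactSupport
  exact hf.2.1.comp_left (g := fun y : ℝ => y ^ 2) (by simp)

theorem fderiv_bound {K : NNReal} (hK : LipschitzWith K f) (x v : P) :
    |fderiv ℝ f x v| ≤ K * ‖v‖ := by
  rw [← Real.norm_eq_abs]
  refine le_trans ((fderiv ℝ f x).le_opNorm v) ?_
  gcongr
  exact norm_fderiv_le_of_lipschitz ℝ hK

theorem fderiv_zero_off (x : P) (hx : x ∉ tsupport f) : fderiv ℝ f x = 0 := by
  have h1 : f =ᶠ[𝓝 x] fun _ => 0 := notMem_tsupport_iff_eventuallyEq.1 hx
  rw [h1.fderiv_eq]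
  simp

theorem d1_zero_off (x : P) (hx : x ∉ tsupport f) : d1 f x = 0 := by
  unfold d1; rw [fderiv_zero_off x hx]; rfl

theorem d2_zero_off (x : P) (hx : x ∉ tsupport f) : d2 f x = 0 := by
  unfold d2; rw [fderiv_zero_off x hx]; rfl

theorem measurable_d1 (f : P → ℝ) : Measurable (d1 f) :=
  measurable_fderiv_apply_const ℝ f (1, 0)

theorem measurable_d2 (f : P → ℝ) : Measurable (d2 f) :=
  measurable_fderiv_apply_const ℝ f (0, 1)

theorem integrable_of_bound {g : P → ℝ} (hg : Measurable g) {S : Set P} (hS : IsCompact S)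
    (h0 : ∀ x, x ∉ S → g x = 0) {C : ℝ} (hC : ∀ x, |g x| ≤ C) : Integrable g := by
  have h1 : IntegrableOn g S volume := by
    apply Measure.integrableOn_of_bounded (M := C) hS.measure_lt_top.ne
      hg.aestronglyMeasurable
    exact Eventually.of_forall fun x => by rw [Real.norm_eq_abs]; exact hC x
  have h2 : g = S.indicator g := by
    funext x
    by_cases hx : x ∈ S
    · rw [Set.indicator_of_mem hx]
    · rw [Set.indicator_of_notMem hx, h0 x hx]
  rw [h2]
  exact h1.integrable_indicator hS.measurableSet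

theorem LipC.integrable_en (hf : LipC D f) :
    Integrable (fun x => d1 f x ^ 2 + d2 f x ^ 2) := by
  obtain ⟨⟨K, hK⟩, hcomp, _⟩ := hf
  refine integrable_of_bound (((measurable_d1 f).pow_const 2).add
    ((measurable_d2 f).pow_const 2)) hcomp (fun x hx => ?_) (C := 2 * (K : ℝ) ^ 2) fun x => ?_
  · rw [d1_zero_off x hx, d2_zero_off x hx]; ring
  · have h1 := fderiv_bound hK x (1, 0)
    have h2 := fderiv_bound hK x (0, 1)
    have n1 : ‖((1 : ℝ), (0 : ℝ))‖ = 1 := by simp [Prod.norm_def]
    have n2 : ‖((0 : ℝ), (1 : ℝ))‖ = 1 := by simp [Prod.norm_def]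
    rw [n1, mul_one] at h1
    rw [n2, mul_one] at h2
    have h3 : d1 f x ^ 2 ≤ (K : ℝ) ^ 2 := by
      rw [← sq_abs]; exact pow_le_pow_left₀ (abs_nonneg _) h1 2
    have h4 : d2 f x ^ 2 ≤ (K : ℝ) ^ 2 := by
      rw [← sq_abs]; exact pow_le_pow_left₀ (abs_nonneg _) h2 2
    rw [abs_of_nonneg (by positivity)]
    linarith

theorem en_nonneg (f : P → ℝ) : 0 ≤ en f :=
  integral_nonneg fun x => by positivity

theorem l2_nonneg (f : P → ℝ) : 0 ≤ l2 f :=
  integral_nonneg fun x => by positivity

theorem LipC.l2_pos (hf : LipC D f) (h0 : f ≠ 0) : 0 < l2 f := by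
  obtain ⟨x, hx⟩ : ∃ x, f x ≠ 0 := by
    by_contra hcon
    push Not at hcon
    exact h0 (funext hcon)
  have h1 : Continuous (fun x => f x ^ 2) := (LipC.cont hf).pow 2
  exact h1.integral_pos_of_hasCompactSupport_nonneg_nonzero
    (hf.2.1.comp_left (g := fun y : ℝ => y ^ 2) (by simp)) (fun x => by positivity)
    (x := x) (by positivity)

/-- Poincare inequality. -/
theorem poincare {w : ℝ} (hs : InStrip D w) (hf : LipC D f) : l2 f ≤ w ^ 2 * en f := by
  obtain ⟨a, b, c, hab, hstrip⟩ := hs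
  have hcont := LipC.cont hf
  have hI1 := LipC.integrable_sq hf
  have hI2 := LipC.integrable_en hf
  obtain ⟨⟨K, hK⟩, hcomp, hsupp⟩ := hf
  obtain ⟨M, hM⟩ := hcomp.exists_bound_of_continuous hcont
  have hM' : ∀ x, |f x| ≤ M := fun x => by rw [← Real.norm_eq_abs]; exact hM x
  have hM0 : 0 ≤ M := le_trans (abs_nonneg _) (hM' 0)
  -- the linear function
  set ell : P → ℝ := fun v => a * v.1 + b * v.2 - c - w / 2 with hell
  have hellL : ∀ v, HasFDerivAt ell
      (a • ContinuousLinearMap.fst ℝ ℝ ℝ + b • ContinuousLinearMap.snd ℝ ℝ ℝ) v := by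
    intro v
    have h1 : HasFDerivAt (fun v : P => (a • ContinuousLinearMap.fst ℝ ℝ ℝ +
        b • ContinuousLinearMap.snd ℝ ℝ ℝ) v)
        (a • ContinuousLinearMap.fst ℝ ℝ ℝ + b • ContinuousLinearMap.snd ℝ ℝ ℝ) v :=
      (a • ContinuousLinearMap.fst ℝ ℝ ℝ + b • ContinuousLinearMap.snd ℝ ℝ ℝ).hasFDerivAt
    have h2 := (h1.sub_const c).sub_const (w / 2)
    exact h2
  have hellLip : ∃ C, LipschitzWith C ell := by
    refine ⟨Real.toNNReal (|a| + |b|), LipschitzWith.of_dist_le_mul fun x y => ?_⟩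
    rw [Real.coe_toNNReal _ (by positivity), Real.dist_eq]
    have e : ell x - ell y = a * (x.1 - y.1) + b * (x.2 - y.2) := by
      simp only [hell]; ring
    rw [e]
    have h1 : |x.1 - y.1| ≤ dist x y := by
      rw [Prod.dist_eq, ← Real.dist_eq]; exact le_max_left _ _
    have h2 : |x.2 - y.2| ≤ dist x y := by
      rw [Prod.dist_eq, ← Real.dist_eq]; exact le_max_right _ _
    refine le_trans (abs_add_le _ _) ?_
    rw [abs_mul, abs_mul, add_mul]
    gcongr
  obtain ⟨C, hC⟩ := hellLip
  -- the square of f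
  have hG : LipschitzWith (Real.toNNReal (2 * M * K)) (fun x => f x * f x) := by
    refine LipschitzWith.of_dist_le_mul fun x y => ?_
    rw [Real.coe_toNNReal _ (by positivity), Real.dist_eq]
    have e : f x * f x - f y * f y = (f x + f y) * (f x - f y) := by ring
    rw [e, abs_mul, mul_assoc]
    have h1 : |f x + f y| ≤ 2 * M := by
      refine le_trans (abs_add_le _ _) ?_
      linarith [hM' x, hM' y]
    have h2 : |f x - f y| ≤ K * dist x y := by
      rw [← Real.dist_eq]; exact hK.dist_le_mul x y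
    exact mul_le_mul h1 h2 (abs_nonneg _) (by positivity)
  have hGc : HasCompactSupport (fun x => f x * f x) := hcomp.mul_right
  have key := hC.integral_lineDeriv_mul_eq hG hGc (μ := (volume : Measure P)) (a, b)
  have hl : ∀ x, lineDeriv ℝ ell x (a, b) = 1 := by
    intro x
    rw [(hellL x).differentiableAt.lineDeriv_eq_fderiv, (hellL x).fderiv]
    show a * a + b * b = 1
    linarith
  have hleft : ∫ x, lineDeriv ℝ ell x (a, b) * (f x * f x) = l2 f := by
    unfold l2
    refine integral_congr_ae (Eventually.of_forall fun x => ?_)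
    simp only [hl x]; ring
  rw [hleft] at key
  have hae : ∀ᵐ x, DifferentiableAt ℝ f x := hK.ae_differentiableAt
  have hright : ∫ x, lineDeriv ℝ (fun x => f x * f x) x (-(a, b)) * ell x ≤
      ∫ x, (1 / 2 * f x ^ 2 + w ^ 2 / 2 * (d1 f x ^ 2 + d2 f x ^ 2)) := by
    have hint : Integrable fun x => (1 / 2 * f x ^ 2 + w ^ 2 / 2 * (d1 f x ^ 2 + d2 f x ^ 2)) :=
      (hI1.const_mul _).add (hI2.const_mul _)
    have hptw : ∀ᵐ x, lineDeriv ℝ (fun x => f x * f x) x (-(a, b)) * ell x ≤
        1 / 2 * f x ^ 2 + w ^ 2 / 2 * (d1 f x ^ 2 + d2 f x ^ 2) ∧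
        -(1 / 2 * f x ^ 2 + w ^ 2 / 2 * (d1 f x ^ 2 + d2 f x ^ 2)) ≤
          lineDeriv ℝ (fun x => f x * f x) x (-(a, b)) * ell x := by
      filter_upwards [hae] with x hx
      have h1 : lineDeriv ℝ (fun x => f x * f x) x (-(a, b)) =
          -(2 * f x * (a * d1 f x + b * d2 f x)) := by
        have hxx : DifferentiableAt ℝ (fun x => f x * f x) x := hx.mul hx
        rw [hxx.lineDeriv_eq_fderiv]
        have h2 : fderiv ℝ (fun x => f x * f x) x = f x • fderiv ℝ f x + f x • fderiv ℝ f x :=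
          fderiv_fun_mul hx hx
        rw [h2, map_neg]
        have h3 : ((a, b) : P) = a • ((1 : ℝ), (0 : ℝ)) + b • ((0 : ℝ), (1 : ℝ)) := by
          ext <;> simp
        rw [h3, map_add, map_smul, map_smul]
        simp only [add_apply, smul_apply, smul_eq_mul,
          d1, d2]
        ring
      rw [h1]
      by_cases hxs : x ∈ tsupport f
      · have hell1 := hstrip x (hsupp hxs)
        have h4 : |ell x| ≤ w / 2 := by
          rw [abs_le]
          simp only [hell]
          constructor <;> linarith [hell1.1, hell1.2]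
        have h5 : ell x ^ 2 ≤ (w / 2) ^ 2 := by
          rw [← sq_abs]; exact pow_le_pow_left₀ (abs_nonneg _) h4 2
        have h6 : (a * d1 f x + b * d2 f x) ^ 2 ≤ d1 f x ^ 2 + d2 f x ^ 2 := by
          have h7 : d1 f x ^ 2 + d2 f x ^ 2 - (a * d1 f x + b * d2 f x) ^ 2 =
              (b * d1 f x - a * d2 f x) ^ 2 := by
            linear_combination (-(d1 f x ^ 2 + d2 f x ^ 2)) * hab
          nlinarith [sq_nonneg (b * d1 f x - a * d2 f x)]
        have h8 : ell x ^ 2 * (a * d1 f x + b * d2 f x) ^ 2 ≤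
            (w / 2) ^ 2 * (d1 f x ^ 2 + d2 f x ^ 2) :=
          mul_le_mul h5 h6 (by positivity) (by positivity)
        constructor
        · nlinarith [sq_nonneg (f x + 2 * (ell x * (a * d1 f x + b * d2 f x)))]
        · nlinarith [sq_nonneg (f x - 2 * (ell x * (a * d1 f x + b * d2 f x)))]
      · have h9 : f x = 0 := image_eq_zero_of_notMem_tsupport hxs
        rw [h9]
        constructor
        · have : 0 ≤ w ^ 2 / 2 * (d1 f x ^ 2 + d2 f x ^ 2) := by positivity
          nlinarith
        · have : 0 ≤ w ^ 2 / 2 * (d1 f x ^ 2 + d2 f x ^ 2) := by positivity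
          nlinarith
    exact integral_mono_of_nonneg_or_all hptw hint
  rw [integral_add (hI1.const_mul _) (hI2.const_mul _), integral_const_mul,
    integral_const_mul] at hright
  have hfin : l2 f ≤ 1 / 2 * l2 f + w ^ 2 / 2 * en f := by
    calc l2 f = _ := key
      _ ≤ _ := hright
  linarith
  where
    integral_mono_of_nonneg_or_all {g h : P → ℝ}
        (hb : ∀ᵐ x, g x ≤ h x ∧ -(h x) ≤ g x) (hh : Integrable h) : ∫ x, g x ≤ ∫ x, h x := by
      by_cases hg : Integrable g
      · exact integral_mono_ae hg hh (hb.mono fun x hx => hx.1)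
      · rw [integral_undef hg]
        apply integral_nonneg_of_ae
        filter_upwards [hb] with x hx
        simp only [Pi.zero_apply]
        linarith [hx.1, hx.2]

end Pool.Agent.MP4eed4eP.PG
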