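import Pool.Agent.Lib.MP_4eed4e_an_P.PBase

/-!
MP_4eed4e_an, project P, block G: similarities of the plane and the min-max values.
-/

namespace Pool.Agent.MP4eed4eP.PG

open Set Filter Topology MeasureTheory
open scoped Pointwise

noncomputable section

/-- The similarity `v ↦ (α v₁ - β v₂ + b₁, β v₁ + α v₂ + b₂)`. -/
def cf (α β : ℝ) (b v : P) : P := (α * v.1 - β * v.2 + b.1, β * v.1 + α * v.2 + b.2)

/-- Its linear part as a continuous linear equivalence. -/
def cfL (α β : ℝ) (h : α ^ 2 + β ^ 2 ≠ 0) : P ≃L[ℝ] P :=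
  LinearEquiv.toContinuousLinearEquiv
    { toFun := fun v => (α * v.1 - β * v.2, β * v.1 + α * v.2)
      invFun := fun v => ((α * v.1 + β * v.2) / (α ^ 2 + β ^ 2),
        (α * v.2 - β * v.1) / (α ^ 2 + β ^ 2))
      left_inv := fun v => by
        ext
        · simp only; field_simp; ring
        · simp only; field_simp; ring
      right_inv := fun v => by
        ext
        · simp only; field_simp; ring
        · simp only; field_simp; ring
      map_add' := fun v w => by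
        ext
        · simp only [Prod.fst_add, Prod.snd_add]; ring
        · simp only [Prod.fst_add, Prod.snd_add]; ring
      map_smul' := fun a v => by
        ext
        · simp only [Prod.smul_fst, Prod.smul_snd, smul_eq_mul, RingHom.id_apply]; ring
        · simp only [Prod.smul_fst, Prod.smul_snd, smul_eq_mul, RingHom.id_apply]; ring }

theorem cfL_apply (α β : ℝ) (h : α ^ 2 + β ^ 2 ≠ 0) (v : P) :
    cfL α β h v = (α * v.1 - β * v.2, β * v.1 + α * v.2) := rfl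

theorem cf_eq (α β : ℝ) (h : α ^ 2 + β ^ 2 ≠ 0) (b v : P) : cf α β b v = cfL α β h v + b := by
  rw [cfL_apply]; rfl

/-- The similarity as a homeomorphism. -/
def cfH (α β : ℝ) (h : α ^ 2 + β ^ 2 ≠ 0) (b : P) : P ≃ₜ P :=
  (cfL α β h).toHomeomorph.trans (Homeomorph.addRight b)

theorem cfH_apply (α β : ℝ) (h : α ^ 2 + β ^ 2 ≠ 0) (b v : P) :
    cfH α β h b v = cf α β b v := by
  rw [cf_eq α β h]; rfl

theorem cfL_det (α β : ℝ) (h : α ^ 2 + β ^ 2 ≠ 0) :
    LinearMap.det ((cfL α β h : P →L[ℝ] P) : P →ₗ[ℝ] P) = α ^ 2 + β ^ 2 := by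
  have h1 : ((cfL α β h : P →L[ℝ] P) : P →ₗ[ℝ] P) =
      Matrix.toLin (Module.Basis.finTwoProd ℝ) (Module.Basis.finTwoProd ℝ) !![α, -β; β, α] := by
    refine LinearMap.ext fun v => ?_
    rw [Matrix.toLin_finTwoProd_apply]
    show cfL α β h v = _
    rw [cfL_apply]
    ext
    · simp only; ring
    · simp only
  rw [h1, LinearMap.det_toLin, Matrix.det_fin_two_of]
  ring

theorem integral_cf (α β : ℝ) (h : α ^ 2 + β ^ 2 ≠ 0) (b : P) (g : P → ℝ) :
    ∫ x, g (cf α β b x) = (α ^ 2 + β ^ 2)⁻¹ * ∫ x, g x := by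
  have hpos : 0 < α ^ 2 + β ^ 2 := lt_of_le_of_ne (by positivity) h.symm
  have h1 : ∫ x, g (cf α β b x) = ∫ x, (fun y => g (y + b)) (cfL α β h x) := by
    refine integral_congr_ae (Eventually.of_forall fun x => ?_)
    simp only [cf_eq α β h]
  rw [h1]
  set e : P ≃ᵐ P := (cfL α β h).toHomeomorph.toMeasurableEquiv with he
  have h2 : ∫ x, (fun y => g (y + b)) (cfL α β h x) =
      ∫ y, g (y + b) ∂(Measure.map e volume) := by
    rw [integral_map_equiv]; rfl
  have hd := cfL_det α β h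
  have h3 : Measure.map e (volume : Measure P) = ENNReal.ofReal |(α ^ 2 + β ^ 2)⁻¹| • volume := by
    have := Measure.map_linearMap_addHaar_eq_smul_addHaar (volume : Measure P)
      (f := ((cfL α β h : P →L[ℝ] P) : P →ₗ[ℝ] P)) (by rw [hd]; exact h)
    rw [hd] at this
    exact this
  rw [h2, h3, integral_smul_measure, abs_of_pos (inv_pos.2 hpos),
    ENNReal.toReal_ofReal (inv_nonneg.2 hpos.le), integral_add_right_eq_self, smul_eq_mul]

theorem fderiv_comp_cf (α β : ℝ) (h : α ^ 2 + β ^ 2 ≠ 0) (b : P) (f : P → ℝ) (x v : P) :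
    fderiv ℝ (fun y => f (cf α β b y)) x v = fderiv ℝ f (cf α β b x) (cfL α β h v) := by
  have h1 : (fun y => f (cf α β b y)) = (fun y => f (y + b)) ∘ (cfL α β h) := by
    funext y; simp only [Function.comp, cf_eq α β h]
  rw [h1, ContinuousLinearEquiv.comp_right_fderiv, fderiv_comp_add_right, cf_eq α β h]
  rfl

theorem d1_comp_cf (α β : ℝ) (h : α ^ 2 + β ^ 2 ≠ 0) (b : P) (f : P → ℝ) (x : P) :
    d1 (fun y => f (cf α β b y)) x = α * d1 f (cf α β b x) + β * d2 f (cf α β b x) := by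
  unfold d1 d2
  rw [fderiv_comp_cf α β h]
  have : cfL α β h (1, 0) = α • (1, 0) + β • ((0 : ℝ), (1 : ℝ)) := by
    rw [cfL_apply]; ext <;> simp
  rw [this, map_add, map_smul, map_smul, smul_eq_mul, smul_eq_mul]

theorem d2_comp_cf (α β : ℝ) (h : α ^ 2 + β ^ 2 ≠ 0) (b : P) (f : P → ℝ) (x : P) :
    d2 (fun y => f (cf α β b y)) x = -β * d1 f (cf α β b x) + α * d2 f (cf α β b x) := by
  unfold d1 d2
  rw [fderiv_comp_cf α β h]
  have : cfL α β h (0, 1) = (-β) • (1, 0) + α • ((0 : ℝ), (1 : ℝ)) := by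
    rw [cfL_apply]; ext <;> simp
  rw [this, map_add, map_smul, map_smul, smul_eq_mul, smul_eq_mul]

theorem en_comp_cf (α β : ℝ) (h : α ^ 2 + β ^ 2 ≠ 0) (b : P) (f : P → ℝ) :
    en (fun y => f (cf α β b y)) = en f := by
  unfold en
  have h1 : ∀ x, d1 (fun y => f (cf α β b y)) x ^ 2 + d2 (fun y => f (cf α β b y)) x ^ 2 =
      (fun y => (α ^ 2 + β ^ 2) * (d1 f y ^ 2 + d2 f y ^ 2)) (cf α β b x) := by
    intro x
    rw [d1_comp_cf α β h, d2_comp_cf α β h]
    ring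
  simp_rw [h1]
  rw [integral_cf α β h b (fun y => (α ^ 2 + β ^ 2) * (d1 f y ^ 2 + d2 f y ^ 2)),
    integral_const_mul]
  field_simp

theorem l2_comp_cf (α β : ℝ) (h : α ^ 2 + β ^ 2 ≠ 0) (b : P) (f : P → ℝ) :
    l2 (fun y => f (cf α β b y)) = (α ^ 2 + β ^ 2)⁻¹ * l2 f := by
  unfold l2
  exact integral_cf α β h b (fun y => f y ^ 2)

theorem LipC_comp_cf {α β : ℝ} (h : α ^ 2 + β ^ 2 ≠ 0) (b : P) {D : Set P} {f : P → ℝ}
    (hf : LipC (cf α β b '' D) f) : LipC D (fun y => f (cf α β b y)) := by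
  obtain ⟨⟨K, hK⟩, hc, hs⟩ := hf
  have hcomp : (fun y => f (cf α β b y)) = f ∘ (cfH α β h b) := by
    funext y; simp only [Function.comp, cfH_apply]
  refine ⟨?_, ?_, ?_⟩
  · have h1 : LipschitzWith ‖(cfL α β h : P →L[ℝ] P)‖₊ (fun y => cf α β b y) := by
      have h2 : (fun y => cf α β b y) = fun y => cfL α β h y + b := by
        funext y; exact cf_eq α β h b y
      rw [h2]
      refine LipschitzWith.of_dist_le_mul fun x y => ?_
      rw [dist_add_right]
      exact (cfL α β h : P →L[ℝ] P).lipschitz.dist_le_mul x y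
    exact ⟨_, hK.comp h1⟩
  · rw [hcomp]; exact hc.comp_homeomorph _
  · rw [hcomp]
    intro x hx
    have h1 : cfH α β h b x ∈ tsupport f := by
      have h2 := tsupport_comp_eq_preimage f (cfH α β h b)
      rw [h2] at hx; exact hx
    obtain ⟨y, hy, hyx⟩ := hs h1
    rw [← cfH_apply α β h] at hyx
    rwa [← (cfH α β h b).injective hyx]

/-- The inverse similarity. -/
theorem exists_cf_inv {α β : ℝ} (h : α ^ 2 + β ^ 2 ≠ 0) (b : P) :
    ∃ α' β' : ℝ, ∃ b' : P, α' ^ 2 + β' ^ 2 ≠ 0 ∧ (α ^ 2 + β ^ 2) * (α' ^ 2 + β' ^ 2) = 1 ∧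
      (∀ v, cf α β b (cf α' β' b' v) = v) ∧ ∀ v, cf α' β' b' (cf α β b v) = v := by
  refine ⟨α / (α ^ 2 + β ^ 2), -β / (α ^ 2 + β ^ 2),
    (-(α * b.1 + β * b.2) / (α ^ 2 + β ^ 2), -(α * b.2 - β * b.1) / (α ^ 2 + β ^ 2)),
    ?_, ?_, ?_, ?_⟩
  · rw [div_pow, div_pow, neg_sq, ← add_div]
    positivity
  · rw [div_pow, div_pow, neg_sq, ← add_div]
    field_simp
  · intro v
    ext
    · simp only [cf]; field_simp; ring
    · simp only [cf]; field_simp; ring
  · intro v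
    ext
    · simp only [cf]; field_simp; ring
    · simp only [cf]; field_simp; ring

/-- The set in the definition of `lamL`. -/
def RS (D : Set P) (k : ℕ) : Set ℝ :=
  {r : ℝ | ∃ V : Submodule ℝ (P → ℝ), Module.finrank ℝ V = k ∧
    ∀ f ∈ V, LipC D f ∧ en f ≤ r * l2 f}

theorem lamL_def (D : Set P) (k : ℕ) : lamL D k = sInf (RS D k) := rfl

theorem RS_cf {α β : ℝ} (h : α ^ 2 + β ^ 2 ≠ 0) (b : P) {D : Set P} {k : ℕ} {r : ℝ}
    (hr : r ∈ RS (cf α β b '' D) k) : (α ^ 2 + β ^ 2) * r ∈ RS D k := by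
  obtain ⟨V, hV, hVf⟩ := hr
  set T : (P → ℝ) →ₗ[ℝ] (P → ℝ) := LinearMap.funLeft ℝ ℝ (cf α β b) with hT
  have hsurj : Function.Surjective (cf α β b) := by
    intro v
    obtain ⟨α', β', b', -, -, h1, -⟩ := exists_cf_inv h b
    exact ⟨_, h1 v⟩
  have hinj : Function.Injective T := LinearMap.funLeft_injective_of_surjective ℝ ℝ _ hsurj
  refine ⟨V.map T, ?_, ?_⟩
  · rw [← hV]
    exact (LinearEquiv.finrank_eq (V.equivMapOfInjective T hinj)).symm
  · rintro _ ⟨f, hf, rfl⟩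
    obtain ⟨h1, h2⟩ := hVf f hf
    have e : T f = fun y => f (cf α β b y) := rfl
    rw [e]
    refine ⟨LipC_comp_cf h b h1, ?_⟩
    rw [en_comp_cf α β h, l2_comp_cf α β h]
    calc en f ≤ r * l2 f := h2
      _ = (α ^ 2 + β ^ 2) * r * ((α ^ 2 + β ^ 2)⁻¹ * l2 f) := by field_simp

theorem RS_cf_iff {α β : ℝ} (h : α ^ 2 + β ^ 2 ≠ 0) (b : P) {D : Set P} {k : ℕ} {r : ℝ} :
    r ∈ RS (cf α β b '' D) k ↔ (α ^ 2 + β ^ 2) * r ∈ RS D k := by
  refine ⟨RS_cf h b, fun hr => ?_⟩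
  obtain ⟨α', β', b', h', hmul, h1, h2⟩ := exists_cf_inv h b
  have hD : cf α' β' b' '' (cf α β b '' D) = D := by
    rw [Set.image_image]
    simp [h2]
  have := RS_cf (D := cf α β b '' D) (k := k) (r := (α ^ 2 + β ^ 2) * r) h' b'
    (by rw [hD]; exact hr)
  have e : (α' ^ 2 + β' ^ 2) * ((α ^ 2 + β ^ 2) * r) = r := by
    linear_combination r * hmul
  rwa [e] at this

/-- Similarities scale the min-max values. -/
theorem lamL_cf {α β : ℝ} (h : α ^ 2 + β ^ 2 ≠ 0) (b : P) (D : Set P) (k : ℕ) :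
    lamL (cf α β b '' D) k = (α ^ 2 + β ^ 2)⁻¹ * lamL D k := by
  have hpos : 0 < α ^ 2 + β ^ 2 := lt_of_le_of_ne (by positivity) h.symm
  rw [lamL_def, lamL_def]
  have h1 : RS (cf α β b '' D) k = (α ^ 2 + β ^ 2)⁻¹ • RS D k := by
    ext r
    rw [RS_cf_iff h, Set.mem_smul_set_iff_inv_smul_mem₀ (inv_ne_zero h), inv_inv, smul_eq_mul]
  rw [h1, Real.sInf_smul_of_nonneg (inv_nonneg.2 hpos.le), smul_eq_mul]

theorem rig_eq_cf (θ : ℝ) (b : P) : rig θ b = cf (Real.cos θ) (Real.sin θ) b := rfl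

theorem cos_sin_ne (θ : ℝ) : Real.cos θ ^ 2 + Real.sin θ ^ 2 ≠ 0 := by
  rw [Real.cos_sq_add_sin_sq]; exact one_ne_zero

theorem lamL_rig (D : Set P) (θ : ℝ) (b : P) (k : ℕ) : lamL (rig θ b '' D) k = lamL D k := by
  rw [rig_eq_cf, lamL_cf (cos_sin_ne θ), Real.cos_sq_add_sin_sq, inv_one, one_mul]

theorem image_hull_cf {α β : ℝ} (h : α ^ 2 + β ^ 2 ≠ 0) (b : P) (S : Set P) :
    cf α β b '' convexHull ℝ S = convexHull ℝ (cf α β b '' S) := by
  have h1 : ∀ A : Set P, cf α β b '' A = (fun y => y + b) '' (cfL α β h '' A) := by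
    intro A
    rw [Set.image_image]
    apply Set.image_congr
    intro v _
    rw [cf_eq α β h]
  rw [h1, h1]
  have h2 : cfL α β h '' convexHull ℝ S = convexHull ℝ (cfL α β h '' S) :=
    LinearMap.image_convexHull ((cfL α β h : P →L[ℝ] P) : P →ₗ[ℝ] P) S
  rw [h2]
  have h3 : ∀ A : Set P, (fun y => y + b) '' convexHull ℝ A =
      convexHull ℝ ((fun y => y + b) '' A) := by
    intro A
    have := AffineMap.image_convexHull (AffineEquiv.vaddConst ℝ b : P ≃ᵃ[ℝ] P).toAffineMap A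
    exact this
  rw [h3]

theorem Kp_cf {n : ℕ} (q : Fin n → P) {α β : ℝ} (h : α ^ 2 + β ^ 2 ≠ 0) (b : P) :
    Kp (fun i => cf α β b (q i)) = cf α β b '' Kp q := by
  unfold Kp
  have h1 : range (fun i => cf α β b (q i)) = cf α β b '' range q := by
    rw [← Set.range_comp]; rfl
  rw [h1, ← image_hull_cf h]
  have h2 : (cf α β b : P → P) = cfH α β h b := by funext v; exact (cfH_apply α β h b v).symm
  rw [h2]
  exact ((cfH α β h b).image_interior _).symm

theorem Kp_rig {n : ℕ} (q : Fin n → P) (θ : ℝ) (b : P) :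
    Kp (fun i => rig θ b (q i)) = rig θ b '' Kp q := by
  rw [rig_eq_cf]; exact Kp_cf q (cos_sin_ne θ) b

theorem lamL_zero (D : Set P) : lamL D 0 = 0 := by
  have h : RS D 0 = Set.univ := by
    rw [Set.eq_univ_iff_forall]
    intro r
    refine ⟨⊥, by simp, ?_⟩
    intro f hf
    rw [Submodule.mem_bot] at hf
    subst hf
    refine ⟨⟨⟨0, LipschitzWith.const 0⟩, HasCompactSupport.zero, ?_⟩, ?_⟩
    · simp [tsupport]
    · have h1 : en 0 = 0 := by
        unfold en d1 d2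
        have : ∀ x : P, fderiv ℝ (0 : P → ℝ) x = 0 := fun x => by simp
        simp [this]
      have h2 : l2 0 = 0 := by simp [l2]
      rw [h1, h2, mul_zero]
  rw [lamL_def, h, Real.sInf_univ]

end

end Pool.Agent.MP4eed4eP.PG
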