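import Pool.Agent.Lib.MP_4eed4e_an_PG.GSep

/-!
MP_4eed4e_an, project P, block G: an open convex set which is in no strip of width `w` and has
diameter at least `k w` contains `k` disjoint squares of size comparable to `w`.
-/

namespace Pool.Agent.MP4eed4eP

open Set Metric

/-- The conclusion: `k` disjoint closed squares of radius `ρ` in `D`. -/
def HasBalls (D : Set P) (k : ℕ) (ρ : ℝ) : Prop :=
  ∃ c : Fin k → P, (∀ i, closedBall (c i) ρ ⊆ D) ∧
    ∀ i j, i ≠ j → Disjoint (closedBall (c i) ρ) (closedBall (c j) ρ)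

theorem mem_closedBall_prod {c v : P} {ρ : ℝ} :
    v ∈ closedBall c ρ ↔ |v.1 - c.1| ≤ ρ ∧ |v.2 - c.2| ≤ ρ := by
  rw [mem_closedBall, Prod.dist_eq, max_le_iff, Real.dist_eq, Real.dist_eq]

/-- The triangle with a vertical side of length `w` and a far vertex to the right. -/
theorem balls_core {D : Set P} (hc : Convex ℝ D) {a q : P} {w : ℝ} (hw : 0 < w)
    (ha : a ∈ D) (ha' : (a.1, a.2 + w) ∈ D) (hq : q ∈ D) {M : ℝ} (hM : q.1 = a.1 + M)
    (hN : |q.2 - a.2| ≤ 4 * M) {k : ℕ} (hk : 1 ≤ k) (hkw : k * w / 4 ≤ M) :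
    HasBalls D k (w / 64) := by
  have hk1 : (1 : ℝ) ≤ k := by exact_mod_cast hk
  have hM0 : 0 < M := by nlinarith
  have hMw : w / 4 ≤ M := by nlinarith
  set ρ := w / 64 with hρ
  have hρ0 : 0 < ρ := by positivity
  set N := q.2 - a.2 with hNd
  have hNM : |N / M| ≤ 4 := by
    rw [abs_div, abs_of_pos hM0, div_le_iff₀ hM0]; exact hN
  -- points of the triangle
  have hmem : ∀ s y : ℝ, 0 ≤ s → s < 1 → 0 ≤ y → y ≤ w * (1 - s) →
      (a.1 + s * M, a.2 + s * N + y) ∈ D := by
    intro s y hs0 hs1 hy0 hy1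
    have h1s : 0 < 1 - s := by linarith
    have hden : 0 < w * (1 - s) := by positivity
    set r := y / (w * (1 - s)) with hr
    have hr0 : 0 ≤ r := by positivity
    have hr1 : r ≤ 1 := by rw [hr, div_le_one hden]; exact hy1
    have h1 : (1 - r) • a + r • (a.1, a.2 + w) ∈ D :=
      hc ha ha' (by linarith) hr0 (by ring)
    have h2 := hc h1 hq h1s.le hs0 (by ring)
    have h3 : (1 - s) • ((1 - r) • a + r • (a.1, a.2 + w)) + s • q =
        (a.1 + s * M, a.2 + s * N + y) := by
      have hy : y = r * (w * (1 - s)) := by rw [hr]; field_simp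
      ext
      · simp only [Prod.fst_add, Prod.smul_fst, smul_eq_mul, hM]; ring
      · simp only [Prod.snd_add, Prod.smul_snd, smul_eq_mul, hy, hNd]; ring
    rwa [h3] at h2
  -- the centres
  refine ⟨fun i => (a.1 + (ρ + 3 * ρ * (i : ℕ)),
    a.2 + (ρ + 3 * ρ * (i : ℕ)) * (N / M) + w / 2 * (1 - (ρ + 3 * ρ * (i : ℕ)) / M)), ?_, ?_⟩
  · intro i v hv
    rw [mem_closedBall_prod] at hv
    obtain ⟨h1, h2⟩ := hv
    simp only at h1 h2
    have hi : ((i : ℕ) : ℝ) + 1 ≤ k := by exact_mod_cast i.2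
    set t := ρ + 3 * ρ * ((i : ℕ) : ℝ) with ht
    have hi0 : (0 : ℝ) ≤ ((i : ℕ) : ℝ) := by positivity
    have ht0 : ρ ≤ t := by nlinarith
    have ht1 : t ≤ M / 2 - ρ := by
      have : 3 * ρ * (((i : ℕ) : ℝ) + 1) ≤ 3 * ρ * k := by gcongr
      have h5 : 3 * ρ * k ≤ 3 / 16 * M := by
        rw [hρ]; nlinarith
      have h6 : ρ ≤ M / 16 := by rw [hρ]; linarith
      nlinarith
    set σ := v.1 - (a.1 + t) with hσ
    have hσ' := abs_le.1 h1
    have hs0 : 0 ≤ (t + σ) / M := div_nonneg (by linarith) hM0.le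
    have hs1 : (t + σ) / M ≤ 1 / 2 := by rw [div_le_iff₀ hM0]; linarith
    have hη := abs_le.1 h2
    have hNM' := abs_le.1 hNM
    have hσN : |σ * (N / M)| ≤ ρ * 4 := by
      rw [abs_mul]; exact mul_le_mul h1 hNM (abs_nonneg _) hρ0.le
    have hσN' := abs_le.1 hσN
    have htM : t / M ≤ 1 / 2 := by rw [div_le_iff₀ hM0]; linarith
    have hσM : |σ / M| ≤ 1 / 16 := by
      rw [abs_div, abs_of_pos hM0, div_le_iff₀ hM0]
      have h6 : ρ ≤ M / 16 := by rw [hρ]; linarith
      linarith
    have hσM' := abs_le.1 hσM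
    have key : v = (a.1 + (t + σ) / M * M, a.2 + (t + σ) / M * N +
        (v.2 - a.2 - (t + σ) / M * N)) := by
      ext
      · simp only [div_mul_cancel₀ _ hM0.ne']
        rw [hσ]; ring
      · simp only; ring
    rw [key]
    have e1 : (t + σ) / M * N = t * (N / M) + σ * (N / M) := by ring
    have e2 : (t + σ) / M = t / M + σ / M := by ring
    have hρw : ρ * 64 = w := by rw [hρ]; ring
    apply hmem _ _ hs0 (by linarith)
    · rw [e1]; nlinarith
    · rw [e1, e2]; nlinarith
  · intro i j hij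
    rw [Set.disjoint_left]
    intro v hv hv'
    rw [mem_closedBall_prod] at hv hv'
    have h1 := abs_le.1 hv.1
    have h2 := abs_le.1 hv'.1
    simp only at h1 h2
    have hne : (i : ℕ) ≠ (j : ℕ) := fun h => hij (Fin.ext h)
    rcases Nat.lt_or_gt_of_ne hne with h | h
    · have h3 : ((i : ℕ) : ℝ) + 1 ≤ ((j : ℕ) : ℝ) := by exact_mod_cast h
      nlinarith
    · have h3 : ((j : ℕ) : ℝ) + 1 ≤ ((i : ℕ) : ℝ) := by exact_mod_cast h
      nlinarith

/-- Transport of `HasBalls` along an isometry of the plane (sup norm). -/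
theorem HasBalls.of_preimage {D : Set P} {k : ℕ} {ρ : ℝ} (g : P ≃ᵢ P)
    (h : HasBalls (g ⁻¹' D) k ρ) : HasBalls D k ρ := by
  obtain ⟨c, h1, h2⟩ := h
  have him : ∀ x, g '' closedBall x ρ = closedBall (g x) ρ := fun x => g.image_closedBall x ρ
  refine ⟨fun i => g (c i), fun i => ?_, fun i j hij => ?_⟩
  · rw [← him]
    rintro _ ⟨y, hy, rfl⟩
    exact h1 i hy
  · rw [← him, ← him]
    exact (Set.disjoint_image_iff g.injective).2 (h2 i j hij)

/-- The reflection in a vertical line. -/
def reflX : P ≃ᵢ P where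
  toFun v := (-v.1, v.2)
  invFun v := (-v.1, v.2)
  left_inv v := by simp
  right_inv v := by simp
  isometry_toFun := by
    refine Isometry.of_dist_eq fun x y => ?_
    simp [Prod.dist_eq, Real.dist_eq]

/-- The exchange of the coordinates. -/
def swapI : P ≃ᵢ P where
  toFun v := (v.2, v.1)
  invFun v := (v.2, v.1)
  left_inv v := by simp
  right_inv v := by simp
  isometry_toFun := by
    refine Isometry.of_dist_eq fun x y => ?_
    simp [Prod.dist_eq, max_comm]

theorem balls_vert {D : Set P} (hc : Convex ℝ D) {a p q : P} {w : ℝ} (hw : 0 < w)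
    (ha : a ∈ D) (ha' : (a.1, a.2 + w) ∈ D) (hp : p ∈ D) (hq : q ∈ D)
    (hL : ∀ v ∈ D, ∀ v' ∈ D, |v.2 - v'.2| ≤ 2 * |q.1 - p.1|) {k : ℕ} (hk : 1 ≤ k)
    (hkw : k * w ≤ 2 * |q.1 - p.1|) :
    HasBalls D k (w / 64) := by
  -- one of the points is far from the section
  have hfar : ∃ r ∈ D, |q.1 - p.1| / 2 ≤ |r.1 - a.1| := by
    by_contra hcon
    push Not at hcon
    have h1 := hcon p hp
    have h2 := hcon q hq
    have h3 : |q.1 - p.1| ≤ |q.1 - a.1| + |p.1 - a.1| := by
      have : q.1 - p.1 = (q.1 - a.1) - (p.1 - a.1) := by ring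
      rw [this]; exact abs_sub _ _
    linarith
  obtain ⟨r, hr, hfr⟩ := hfar
  rcases le_total a.1 r.1 with hle | hle
  · have h0 : |r.1 - a.1| = r.1 - a.1 := abs_of_nonneg (by linarith)
    refine balls_core hc hw ha ha' hr (M := r.1 - a.1) (by ring) ?_ hk ?_
    · have := hL r hr a ha
      linarith
    · linarith
  · have h0 : |r.1 - a.1| = a.1 - r.1 := by rw [abs_of_nonpos (by linarith)]; ring
    apply HasBalls.of_preimage reflX
    have hc' : Convex ℝ (reflX ⁻¹' D) := by
      intro x hx y hy s t hs ht hst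
      have := hc hx hy hs ht hst
      simp only [Set.mem_preimage] at *
      have e : reflX (s • x + t • y) = s • reflX x + t • reflX y := by
        ext
        · simp [reflX]; ring
        · simp [reflX]
      rw [e]; exact this
    refine balls_core (D := reflX ⁻¹' D) hc' (a := (-a.1, a.2)) (q := (-r.1, r.2)) hw ?_ ?_ ?_
      (M := a.1 - r.1) (by simp; ring) ?_ hk ?_
    · simpa [reflX] using ha
    · simpa [reflX] using ha'
    · simpa [reflX] using hr
    · have := hL r hr a ha
      simp only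
      linarith
    · linarith

/-- `k` disjoint squares in a convex set which is not in a strip of width `w` and has diameter
at least `k w`. -/
theorem exists_balls {D : Set P} (hD : IsOpen D) (hc : Convex ℝ D) (hne : D.Nonempty)
    (hb : Bornology.IsBounded D) {w : ℝ} (hw : 0 < w) (hs : ¬ InStrip D w) {k : ℕ} (hk : 1 ≤ k)
    (hdiam : k * w ≤ diam D) : HasBalls D k (w / 64) := by
  have hd0 : 0 < diam D := lt_of_lt_of_le (by positivity) hdiam
  -- two points at distance at least half the diameter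
  obtain ⟨p, hp, q, hq, hpq⟩ : ∃ p ∈ D, ∃ q ∈ D, diam D / 2 ≤ dist q p := by
    by_contra hcon
    push Not at hcon
    have : diam D ≤ diam D / 2 :=
      diam_le_of_forall_dist_le (by positivity) fun x hx y hy => (hcon y hy x hx).le
    linarith
  have hall : ∀ v ∈ D, ∀ v' ∈ D, dist v v' ≤ 2 * dist q p := fun v hv v' hv' => by
    have := dist_le_diam_of_mem hb hv hv'
    linarith
  rw [Prod.dist_eq] at hpq hall
  rcases le_total (dist q.2 p.2) (dist q.1 p.1) with hle | hle
  · rw [max_eq_left hle] at hpq hall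
    obtain ⟨a, ha, ha'⟩ := exists_vert_section hD hc hne hw hs
    rw [Real.dist_eq] at hpq hall
    refine balls_vert hc hw ha ha' hp hq (fun v hv v' hv' => ?_) hk (by linarith)
    refine le_trans ?_ (hall v hv v' hv')
    rw [Prod.dist_eq, Real.dist_eq, Real.dist_eq]
    exact le_max_right _ _
  · rw [max_eq_right hle] at hpq hall
    obtain ⟨a, ha, ha'⟩ := exists_hor_section hD hc hne hw hs
    rw [Real.dist_eq] at hpq hall
    apply HasBalls.of_preimage swapI
    have hc' : Convex ℝ (swapI ⁻¹' D) := by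
      intro x hx y hy s t hs ht hst
      exact hc hx hy hs ht hst
    refine balls_vert (D := swapI ⁻¹' D) hc' (a := (a.2, a.1)) (p := (p.2, p.1))
      (q := (q.2, q.1)) hw ha ha' hp hq (fun v hv v' hv' => ?_) hk
      (by simp only; linarith)
    refine le_trans ?_ (hall _ hv _ hv')
    rw [Prod.dist_eq, Real.dist_eq, Real.dist_eq]
    exact le_max_left _ _

end Pool.Agent.MP4eed4eP
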