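import Pool.Agent.Lib.MP_4eed4e_an_PG.GPoin
import Pool.Agent.Lib.MP_4eed4e_an_PG.GBalls

/-!
MP_4eed4e_an, project P, block G: upper bounds for the min-max values by disjoint bumps.
-/

namespace Pool.Agent.MP4eed4eP.PG

open Set Filter Topology MeasureTheory Metric

noncomputable section

theorem LipC.zero (D : Set P) : LipC D 0 :=
  ⟨⟨0, LipschitzWith.const 0⟩, HasCompactSupport.zero, by simp [tsupport]⟩

theorem LipC.add {D : Set P} {f g : P → ℝ} (hf : LipC D f) (hg : LipC D g) :
    LipC D (f + g) := by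
  obtain ⟨⟨K, hK⟩, hc, hs⟩ := hf
  obtain ⟨⟨K', hK'⟩, hc', hs'⟩ := hg
  refine ⟨⟨_, hK.add hK'⟩, hc.add hc', ?_⟩
  exact (tsupport_add f g).trans (Set.union_subset hs hs')

theorem LipC.smul {D : Set P} {f : P → ℝ} (hf : LipC D f) (a : ℝ) : LipC D (a • f) := by
  obtain ⟨⟨K, hK⟩, hc, hs⟩ := hf
  refine ⟨⟨Real.toNNReal (|a| * K), LipschitzWith.of_dist_le_mul fun x y => ?_⟩, ?_, ?_⟩
  · rw [Real.coe_toNNReal _ (by positivity), Real.dist_eq]
    have e : (a • f) x - (a • f) y = a * (f x - f y) := by
      simp only [Pi.smul_apply, smul_eq_mul]; ring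
    rw [e, abs_mul, mul_assoc]
    gcongr
    rw [← Real.dist_eq]; exact hK.dist_le_mul x y
  · exact hc.smul_left (f := fun _ => a)
  · refine (closure_mono ?_).trans hs
    exact Function.support_const_smul_subset a f

theorem LipC.sum {D : Set P} {k : ℕ} {f : Fin k → P → ℝ} (hf : ∀ i, LipC D (f i)) :
    LipC D (∑ i, f i) := by
  classical
  have h : ∀ s : Finset (Fin k), LipC D (∑ i ∈ s, f i) := by
    intro s
    induction s using Finset.induction_on with
    | empty => simpa using LipC.zero D
    | insert a s ha ih => rw [Finset.sum_insert ha]; exact LipC.add (hf a) ih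
  exact h Finset.univ

/-- The bump with centre `c` and radius `ρ`. -/
def bump (c : P) (ρ : ℝ) (x : P) : ℝ := max 0 (ρ - dist x c)

theorem bump_lip (c : P) (ρ : ℝ) : LipschitzWith 1 (bump c ρ) := by
  have h1 : LipschitzWith 1 (fun x : P => ρ - dist x c) := by
    refine LipschitzWith.of_dist_le_mul fun x y => ?_
    rw [NNReal.coe_one, one_mul, Real.dist_eq]
    have e : ρ - dist x c - (ρ - dist y c) = dist y c - dist x c := by ring
    rw [e]
    have := abs_dist_sub_le y x c
    rw [dist_comm y x] at this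
    exact this
  exact h1.const_max 0

theorem bump_tsupport (c : P) (ρ : ℝ) : tsupport (bump c ρ) ⊆ closedBall c ρ := by
  apply closure_minimal _ isClosed_closedBall
  intro x hx
  rw [Function.mem_support, bump] at hx
  rw [mem_closedBall]
  by_contra hcon
  push Not at hcon
  exact hx (max_eq_left (by linarith))

theorem bump_LipC {D : Set P} {c : P} {ρ : ℝ} (h : closedBall c ρ ⊆ D) :
    LipC D (bump c ρ) := by
  refine ⟨⟨1, bump_lip c ρ⟩, ?_, (bump_tsupport c ρ).trans h⟩
  exact (isCompact_closedBall c ρ).of_isClosed_subset (isClosed_tsupport _) (bump_tsupport c ρ)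

theorem volume_ball_P (c : P) {r : ℝ} (hr : 0 ≤ r) :
    (volume (closedBall c r)).toReal = 4 * r ^ 2 := by
  have h1 : closedBall c r = closedBall c.1 r ×ˢ closedBall c.2 r :=
    (closedBall_prod_same _ _ _).symm
  rw [h1, Measure.volume_eq_prod, Measure.prod_prod, Real.volume_closedBall,
    Real.volume_closedBall, ← ENNReal.ofReal_mul (by positivity),
    ENNReal.toReal_ofReal (by positivity)]
  ring

theorem bump_l2 (c : P) {ρ : ℝ} (hρ : 0 < ρ) : ρ ^ 4 / 4 ≤ l2 (bump c ρ) := by
  have hL : LipC univ (bump c ρ) := bump_LipC (Set.subset_univ _)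
  have hI := LipC.integrable_sq hL
  have h1 : ∫ x in closedBall c (ρ / 2), bump c ρ x ^ 2 ≤ l2 (bump c ρ) :=
    setIntegral_le_integral hI (Eventually.of_forall fun x => by positivity)
  have h2 : ∫ _ in closedBall c (ρ / 2), (ρ / 2) ^ 2 ≤
      ∫ x in closedBall c (ρ / 2), bump c ρ x ^ 2 := by
    refine setIntegral_mono_on ?_ hI.integrableOn measurableSet_closedBall fun x hx => ?_
    · exact integrableOn_const measure_closedBall_lt_top.ne
    · rw [mem_closedBall] at hx
      have : ρ / 2 ≤ bump c ρ x := by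
        unfold bump
        exact le_trans (by linarith) (le_max_right _ _)
      gcongr
  rw [setIntegral_const, smul_eq_mul, Measure.real, volume_ball_P c (by positivity)] at h2
  nlinarith

theorem bump_en (c : P) {ρ : ℝ} (hρ : 0 < ρ) : en (bump c ρ) ≤ 8 * ρ ^ 2 := by
  have hL : LipC univ (bump c ρ) := bump_LipC (Set.subset_univ _)
  have hI := LipC.integrable_en hL
  unfold en
  have h0 : ∀ x, x ∉ closedBall c ρ → d1 (bump c ρ) x ^ 2 + d2 (bump c ρ) x ^ 2 = 0 := by
    intro x hx
    have hx' : x ∉ tsupport (bump c ρ) := fun h => hx (bump_tsupport c ρ h)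
    rw [d1_zero_off x hx', d2_zero_off x hx']; ring
  have h1 : ∫ x, (d1 (bump c ρ) x ^ 2 + d2 (bump c ρ) x ^ 2) =
      ∫ x in closedBall c ρ, (d1 (bump c ρ) x ^ 2 + d2 (bump c ρ) x ^ 2) :=
    (setIntegral_eq_integral_of_forall_compl_eq_zero fun x hx => h0 x hx).symm
  rw [h1]
  have h2 : ∫ x in closedBall c ρ, (d1 (bump c ρ) x ^ 2 + d2 (bump c ρ) x ^ 2) ≤
      ∫ _ in closedBall c ρ, (2 : ℝ) := by
    refine setIntegral_mono_on hI.integrableOn ?_ measurableSet_closedBall fun x _ => ?_
    · exact integrableOn_const measure_closedBall_lt_top.ne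
    · have h3 := fderiv_bound (bump_lip c ρ) x (1, 0)
      have h4 := fderiv_bound (bump_lip c ρ) x (0, 1)
      have n1 : ‖((1 : ℝ), (0 : ℝ))‖ = 1 := by simp [Prod.norm_def]
      have n2 : ‖((0 : ℝ), (1 : ℝ))‖ = 1 := by simp [Prod.norm_def]
      rw [n1, NNReal.coe_one, mul_one] at h3
      rw [n2, NNReal.coe_one, mul_one] at h4
      have h5 : d1 (bump c ρ) x ^ 2 ≤ 1 := by
        rw [← sq_abs]; exact pow_le_one₀ (abs_nonneg _) h3
      have h6 : d2 (bump c ρ) x ^ 2 ≤ 1 := by
        rw [← sq_abs]; exact pow_le_one₀ (abs_nonneg _) h4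
      linarith
  rw [setIntegral_const, smul_eq_mul, Measure.real, volume_ball_P c hρ.le] at h2
  linarith

/-- The bumps of a system of disjoint squares give an admissible space. -/
theorem RS_of_balls {D : Set P} {k : ℕ} {ρ : ℝ} (hρ : 0 < ρ) (h : HasBalls D k ρ) :
    32 / ρ ^ 2 ∈ RS D k := by
  classical
  obtain ⟨c, hc, hdis⟩ := h
  set f : Fin k → P → ℝ := fun i => bump (c i) ρ with hf
  have hLip : ∀ i, LipC D (f i) := fun i => bump_LipC (hc i)
  have hcenter : ∀ i j, f i (c j) = if i = j then ρ else 0 := by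
    intro i j
    split_ifs with hij
    · subst hij; simp [hf, bump, hρ.le]
    · have h1 : c j ∉ closedBall (c i) ρ := by
        intro hmem
        exact Set.disjoint_left.1 (hdis i j hij) hmem (mem_closedBall_self hρ.le)
      rw [mem_closedBall] at h1
      push Not at h1
      simp only [hf, bump]
      exact max_eq_left (by linarith)
  have hli : LinearIndependent ℝ f := by
    rw [Fintype.linearIndependent_iff]
    intro g hg j
    have h1 := congrFun hg (c j)
    rw [Finset.sum_apply] at h1
    simp only [Pi.smul_apply, smul_eq_mul, hcenter, Pi.zero_apply, mul_ite, mul_zero,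
      Finset.sum_ite_eq', Finset.mem_univ, if_true] at h1
    rcases mul_eq_zero.1 h1 with h2 | h2
    · exact h2
    · exact absurd h2 hρ.ne'
  refine ⟨Submodule.span ℝ (Set.range f), ?_, ?_⟩
  · rw [finrank_span_eq_card hli, Fintype.card_fin]
  · intro F hF
    rw [Submodule.mem_span_range_iff_exists_fun] at hF
    obtain ⟨a, rfl⟩ := hF
    refine ⟨LipC.sum fun i => LipC.smul (hLip i) (a i), ?_⟩
    set F : P → ℝ := ∑ i, a i • f i with hFdef
    -- at every point at most one bump is active
    have hloc : ∀ x, (F x ^ 2 = ∑ i, a i ^ 2 * f i x ^ 2) ∧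
        (d1 F x ^ 2 + d2 F x ^ 2 = ∑ i, a i ^ 2 * (d1 (f i) x ^ 2 + d2 (f i) x ^ 2)) := by
      intro x
      by_cases hk : k = 0
      · subst hk
        have hF0 : F = 0 := by simp [hFdef]
        rw [hF0]
        constructor
        · simp
        · rw [d1_zero_off x (by simp [tsupport]), d2_zero_off x (by simp [tsupport])]; simp
      have hk' : 0 < k := Nat.pos_of_ne_zero hk
      obtain ⟨i, hi⟩ : ∃ i : Fin k, ∀ j, j ≠ i → x ∉ closedBall (c j) ρ := by
        by_cases hex : ∃ i, x ∈ closedBall (c i) ρ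
        · obtain ⟨i, hi⟩ := hex
          exact ⟨i, fun j hj hmem => Set.disjoint_left.1 (hdis j i hj) hmem hi⟩
        · push Not at hex
          exact ⟨⟨0, hk'⟩, fun j _ => hex j⟩
      have hi' : ∀ j, j ≠ i → x ∉ tsupport (f j) := fun j hj hmem =>
        hi j hj (bump_tsupport _ _ hmem)
      have hev : F =ᶠ[𝓝 x] (a i • f i) := by
        have h1 : ∀ j, ∀ᶠ y in 𝓝 x, j ≠ i → f j y = 0 := by
          intro j
          by_cases hj : j = i
          · exact Eventually.of_forall fun y h => absurd hj h
          · have := notMem_tsupport_iff_eventuallyEq.1 (hi' j hj)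
            filter_upwards [this] with y hy _
            exact hy
        filter_upwards [eventually_all.2 h1] with y hy
        rw [hFdef, Finset.sum_apply]
        rw [Finset.sum_eq_single i]
        · intro j _ hj
          simp only [Pi.smul_apply, smul_eq_mul, hy j hj, mul_zero]
        · intro h; exact absurd (Finset.mem_univ i) h
      have hfd : fderiv ℝ F x = a i • fderiv ℝ (f i) x := by
        rw [hev.fderiv_eq]
        exact congrFun (fderiv_const_smul_field (a i)) x
      have h0 : ∀ j, j ≠ i → f j x = 0 := fun j hj =>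
        image_eq_zero_of_notMem_tsupport (hi' j hj)
      constructor
      · rw [Finset.sum_eq_single i]
        · have := hev.eq_of_nhds
          rw [this]; simp only [Pi.smul_apply, smul_eq_mul]; ring
        · intro j _ hj; rw [h0 j hj]; ring
        · intro h; exact absurd (Finset.mem_univ i) h
      · rw [Finset.sum_eq_single i]
        · have e1 : d1 F x = a i * d1 (f i) x := by unfold d1; rw [hfd]; rfl
          have e2 : d2 F x = a i * d2 (f i) x := by unfold d2; rw [hfd]; rfl
          rw [e1, e2]; ring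
        · intro j _ hj
          rw [d1_zero_off x (hi' j hj), d2_zero_off x (hi' j hj)]; ring
        · intro h; exact absurd (Finset.mem_univ i) h
    have hen : en F = ∑ i, a i ^ 2 * en (f i) := by
      unfold en
      simp_rw [fun x => (hloc x).2]
      rw [integral_finsetSum _ fun i _ => (LipC.integrable_en (hLip i)).const_mul _]
      refine Finset.sum_congr rfl fun i _ => ?_
      rw [integral_const_mul]
    have hl2 : l2 F = ∑ i, a i ^ 2 * l2 (f i) := by
      unfold l2
      simp_rw [fun x => (hloc x).1]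
      rw [integral_finsetSum _ fun i _ => (LipC.integrable_sq (hLip i)).const_mul _]
      refine Finset.sum_congr rfl fun i _ => ?_
      rw [integral_const_mul]
    rw [hen, hl2, Finset.mul_sum]
    refine Finset.sum_le_sum fun i _ => ?_
    have h1 := bump_en (c i) hρ
    have h2 := bump_l2 (c i) hρ
    have h3 : en (f i) ≤ 32 / ρ ^ 2 * l2 (f i) := by
      calc en (f i) ≤ 8 * ρ ^ 2 := h1
        _ = 32 / ρ ^ 2 * (ρ ^ 4 / 4) := by field_simp; ring
        _ ≤ 32 / ρ ^ 2 * l2 (f i) := by gcongr
    calc a i ^ 2 * en (f i) ≤ a i ^ 2 * (32 / ρ ^ 2 * l2 (f i)) := by gcongr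
      _ = 32 / ρ ^ 2 * (a i ^ 2 * l2 (f i)) := by ring

end

end Pool.Agent.MP4eed4eP.PG
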