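import Pool.Agent.Lib.MP_4eed4e_an_PG.GExt

/-!
MP_4eed4e_an, project P, block G: counterclockwise tuples are in convex position.
-/

namespace Pool.Agent.MP4eed4eP

open Set

/-- The orientation of three points. -/
def ori (a b c : P) : ℝ := det2 (b - a) (c - a)

theorem ori_rot (a b c : P) : ori a b c = ori b c a := by
  simp only [ori, det2, Prod.fst_sub, Prod.snd_sub]; ring

theorem ori_self_right (a b : P) : ori a b b = 0 := by
  simp only [ori, det2, Prod.fst_sub, Prod.snd_sub]; ring

theorem Ccw.ori_pos {n : ℕ} {q : Fin n → P} (hq : Ccw q) {i j k : Fin n} (hij : i < j)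
    (hjk : j < k) : 0 < ori (q i) (q j) (q k) := hq i j k hij hjk

/-- The two neighbours of a vertex. -/
theorem Ccw.neighbours {n : ℕ} (hn : 3 ≤ n) {q : Fin n → P} (hq : Ccw q) (i : Fin n) :
    ∃ a b : Fin n, ∀ j, j ≠ i → 0 < ori (q i) (q a) (q j) + ori (q i) (q j) (q b) := by
  obtain ⟨i, hi⟩ := i
  rcases Nat.eq_zero_or_pos i with h0 | h0
  · subst h0
    refine ⟨⟨1, by omega⟩, ⟨n - 1, by omega⟩, ?_⟩
    rintro ⟨j, hj⟩ hne
    have hj0 : 0 < j := Nat.pos_of_ne_zero fun h => hne (by simp [h])
    rcases (show j = 1 ∨ 1 < j by omega) with h1 | h1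
    · subst h1
      rw [ori_self_right]
      have := hq.ori_pos (i := ⟨0, hi⟩) (j := ⟨1, hj⟩) (k := ⟨n - 1, by omega⟩)
        (by simp) (by simp; omega)
      linarith
    · have h2 := hq.ori_pos (i := ⟨0, hi⟩) (j := ⟨1, by omega⟩) (k := ⟨j, hj⟩)
        (by simp) (by simpa using h1)
      rcases (show j = n - 1 ∨ j < n - 1 by omega) with h3 | h3
      · subst h3; rw [ori_self_right]; linarith
      · have h4 := hq.ori_pos (i := ⟨0, hi⟩) (j := ⟨j, hj⟩) (k := ⟨n - 1, by omega⟩)
          (by simpa using hj0) (by simpa using h3)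
        linarith
  · rcases (show i = n - 1 ∨ i < n - 1 by omega) with h1 | h1
    · subst h1
      refine ⟨⟨0, by omega⟩, ⟨n - 2, by omega⟩, ?_⟩
      rintro ⟨j, hj⟩ hne
      have hj1 : j < n - 1 := by
        rcases (show j = n - 1 ∨ j < n - 1 by omega) with h | h
        · exact absurd (by simp [h]) hne
        · exact h
      rcases Nat.eq_zero_or_pos j with h2 | h2
      · subst h2
        rw [ori_self_right]
        have h3 := hq.ori_pos (i := ⟨0, hj⟩) (j := ⟨n - 2, by omega⟩) (k := ⟨n - 1, hi⟩)
          (by simp; omega) (by simp; omega)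
        rw [ori_rot, ori_rot] at h3
        linarith
      · have h3 := hq.ori_pos (i := ⟨0, by omega⟩) (j := ⟨j, hj⟩) (k := ⟨n - 1, hi⟩)
          (by simpa using h2) (by simpa using hj1)
        rw [ori_rot, ori_rot] at h3
        rcases (show j = n - 2 ∨ j < n - 2 by omega) with h4 | h4
        · subst h4; rw [ori_self_right (q ⟨n - 1, hi⟩)]; linarith
        · have h5 := hq.ori_pos (i := ⟨j, hj⟩) (j := ⟨n - 2, by omega⟩) (k := ⟨n - 1, hi⟩)
            (by simpa using h4) (by simp; omega)
          rw [ori_rot, ori_rot] at h5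
          linarith
    · refine ⟨⟨i + 1, by omega⟩, ⟨i - 1, by omega⟩, ?_⟩
      rintro ⟨j, hj⟩ hne
      have hne' : j ≠ i := fun h => hne (by simp [h])
      have hmid := hq.ori_pos (i := ⟨i - 1, by omega⟩) (j := ⟨i, hi⟩) (k := ⟨i + 1, by omega⟩)
        (by simp; omega) (by simp)
      rw [ori_rot] at hmid
      rcases Nat.lt_or_gt_of_ne hne' with h2 | h2
      · have h3 := hq.ori_pos (i := ⟨j, hj⟩) (j := ⟨i, hi⟩) (k := ⟨i + 1, by omega⟩)
          (by simpa using h2) (by simp)
        rw [ori_rot] at h3
        rcases (show j = i - 1 ∨ j < i - 1 by omega) with h4 | h4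
        · subst h4
          rw [ori_self_right (q ⟨i, hi⟩) (q ⟨i - 1, hj⟩)]; linarith
        · have h5 := hq.ori_pos (i := ⟨j, hj⟩) (j := ⟨i - 1, by omega⟩) (k := ⟨i, hi⟩)
            (by simpa using h4) (by simp; omega)
          rw [ori_rot, ori_rot] at h5
          linarith
      · have h3 := hq.ori_pos (i := ⟨i - 1, by omega⟩) (j := ⟨i, hi⟩) (k := ⟨j, hj⟩)
          (by simp; omega) (by simpa using h2)
        rw [ori_rot] at h3
        rcases (show j = i + 1 ∨ i + 1 < j by omega) with h4 | h4
        · subst h4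
          rw [ori_self_right (q ⟨i, hi⟩) (q ⟨i + 1, hj⟩)]; linarith
        · have h5 := hq.ori_pos (i := ⟨i, hi⟩) (j := ⟨i + 1, by omega⟩) (k := ⟨j, hj⟩)
            (by simp) (by simpa using h4)
          linarith

/-- Counterclockwise tuples are in convex position. -/
theorem Ccw.convexIndependent {n : ℕ} (hn : 3 ≤ n) {q : Fin n → P} (hq : Ccw q) :
    ConvexIndependent ℝ q := by
  rw [convexIndependent_iff_notMem_convexHull_sdiff]
  intro i s hmem
  obtain ⟨a, b, hab⟩ := hq.neighbours hn i
  have hc : Convex ℝ {v : P | 0 < ori (q i) (q a) v + ori (q i) v (q b)} := by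
    intro x hx y hy s t hs ht hst
    simp only [Set.mem_ofPred_eq, ori, det2, Prod.fst_sub, Prod.snd_sub, Prod.fst_add,
      Prod.snd_add, Prod.smul_fst, Prod.smul_snd, smul_eq_mul] at *
    have hs' : s = 1 - t := by linarith
    subst hs'
    rcases hs.eq_or_lt with h | h
    · have ht1 : t = 1 := by linarith
      subst ht1
      simpa using hy
    · rcases ht.eq_or_lt with h' | h'
      · rw [← h']; simpa using hx
      · have h1 := mul_pos h hx
        have h2 := mul_pos h' hy
        linarith
  have hsub : q '' (s \ {i}) ⊆ {v : P | 0 < ori (q i) (q a) v + ori (q i) v (q b)} := by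
    rintro _ ⟨j, ⟨_, hj⟩, rfl⟩
    exact hab j hj
  have h := convexHull_min hsub hc hmem
  simp only [Set.mem_ofPred_eq, ori, det2, Prod.fst_sub, Prod.snd_sub] at h
  have h0 : ((q a).1 - (q i).1) * ((q i).2 - (q i).2) - ((q a).2 - (q i).2) * ((q i).1 - (q i).1) +
      (((q i).1 - (q i).1) * ((q b).2 - (q i).2) -
        ((q i).2 - (q i).2) * ((q b).1 - (q i).1)) = 0 := by
    ring
  linarith

/-- The polygon of a counterclockwise tuple is nonempty. -/
theorem Ccw.Kp_nonempty' {n : ℕ} (hn : 3 ≤ n) {q : Fin n → P} (hq : Ccw q) :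
    (Kp q).Nonempty := by
  set a := q ⟨0, by omega⟩ with ha
  set b := q ⟨1, by omega⟩ with hb
  set c := q ⟨2, by omega⟩ with hc
  have hd : 0 < ori a b c := hq.ori_pos (i := ⟨0, by omega⟩) (j := ⟨1, by omega⟩)
    (k := ⟨2, by omega⟩) (by simp) (by simp)
  -- the open set of points with positive barycentric coordinates
  set U : Set P := {v | 0 < ori v b c ∧ 0 < ori a v c ∧ 0 < ori a b v} with hU
  have hUo : IsOpen U := by
    have h1 : Continuous fun v : P => ori v b c := by unfold ori det2; fun_prop
    have h2 : Continuous fun v : P => ori a v c := by unfold ori det2; fun_prop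
    have h3 : Continuous fun v : P => ori a b v := by unfold ori det2; fun_prop
    exact (isOpen_lt continuous_const h1).inter ((isOpen_lt continuous_const h2).inter
      (isOpen_lt continuous_const h3))
  have hUsub : U ⊆ convexHull ℝ (range q) := by
    rintro v ⟨h1, h2, h3⟩
    have hsum : ori v b c + ori a v c + ori a b v = ori a b c := by
      simp only [ori, det2, Prod.fst_sub, Prod.snd_sub]; ring
    have hv : v = (ori v b c / ori a b c) • a + (ori a v c / ori a b c) • b +
        (ori a b v / ori a b c) • c := by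
      have hne := hd.ne'
      ext
      · simp only [Prod.fst_add, Prod.smul_fst, smul_eq_mul]
        field_simp
        simp only [ori, det2, Prod.fst_sub, Prod.snd_sub]; ring
      · simp only [Prod.snd_add, Prod.smul_snd, smul_eq_mul]
        field_simp
        simp only [ori, det2, Prod.fst_sub, Prod.snd_sub]; ring
    have hs : ∑ l ∈ (Finset.univ : Finset (Fin 3)),
        (![ori v b c / ori a b c, ori a v c / ori a b c, ori a b v / ori a b c] l) •
          (![a, b, c] l) = v := by
      simp only [Fin.sum_univ_three, Matrix.cons_val_zero, Matrix.cons_val_one, Matrix.cons_val]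
      exact hv.symm
    rw [← hs]
    refine (convex_convexHull ℝ (range q)).sum_mem ?_ ?_ ?_
    · intro l _
      fin_cases l
      · exact (div_pos h1 hd).le
      · exact (div_pos h2 hd).le
      · exact (div_pos h3 hd).le
    · simp only [Fin.sum_univ_three, Matrix.cons_val_zero, Matrix.cons_val_one, Matrix.cons_val]
      rw [← add_div, ← add_div, hsum, div_self hd.ne']
    · intro l _
      apply subset_convexHull
      fin_cases l
      · exact ⟨_, rfl⟩
      · exact ⟨_, rfl⟩
      · exact ⟨_, rfl⟩
  have hUne : U.Nonempty := by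
    refine ⟨(3 : ℝ)⁻¹ • (a + b + c), ?_, ?_, ?_⟩ <;>
    · simp only [ori, det2, Prod.fst_sub, Prod.snd_sub, Prod.fst_add, Prod.snd_add,
        Prod.smul_fst, Prod.smul_snd, smul_eq_mul] at hd ⊢
      nlinarith
  exact hUne.mono (interior_maximal hUsub hUo)

end Pool.Agent.MP4eed4eP
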