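import Pool.Agent.Lib.MP_4eed4e_an_PG.GOrd

/-!
MP_4eed4e_an, project P, block G: vertices of a convex polygon.
-/

namespace Pool.Agent.MP4eed4eP

open Set

/-- A hull with interior points is not spanned by two points. -/
theorem interior_hull_two (a b : P) : interior (convexHull ℝ {a, b}) = ∅ := by
  rw [convexHull_pair]
  by_contra hne
  obtain ⟨x, hx⟩ := Set.nonempty_iff_ne_empty.2 hne
  -- a nonzero linear functional constant on the segment
  have hsub : segment ℝ a b ⊆ {v | det2 (b - a) (v - a) = 0} := by
    intro v hv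
    rw [segment_eq_image'] at hv
    obtain ⟨t, _, rfl⟩ := hv
    simp only [Set.mem_ofPred_eq, det2, Prod.fst_sub, Prod.snd_sub, Prod.fst_add, Prod.snd_add,
      Prod.smul_fst, Prod.smul_snd, smul_eq_mul]
    ring
  have hx1 := hsub (interior_subset hx)
  obtain ⟨ε, hε, hball⟩ := Metric.isOpen_iff.1 isOpen_interior x hx
  by_cases hab : b - a = 0
  · have hb : b = a := sub_eq_zero.1 hab
    rw [hb, segment_same] at hball
    have h1 : x + (ε / 2, 0) ∈ interior {a} := hball (by
      rw [Metric.mem_ball, dist_eq_norm, add_sub_cancel_left, Prod.norm_mk]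
      simp only [norm_zero, Real.norm_eq_abs]
      rw [abs_of_pos (by positivity), max_lt_iff]; constructor <;> linarith)
    have h2 := interior_subset h1
    rw [hb, segment_same] at hx
    have h3 := interior_subset hx
    rw [Set.mem_singleton_iff] at h2 h3
    rw [h3] at h2
    have := congrArg Prod.fst h2
    simp at this
    linarith
  · -- move in the normal direction
    set d := b - a with hd
    have hd2 : 0 < d.1 ^ 2 + d.2 ^ 2 := by
      by_contra hcon
      push Not at hcon
      apply hab
      ext
      · simp only [Prod.fst_zero]; nlinarith [sq_nonneg d.1, sq_nonneg d.2]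
      · simp only [Prod.snd_zero]; nlinarith [sq_nonneg d.1, sq_nonneg d.2]
    set s := ε / (2 * (|d.1| + |d.2| + 1)) with hs
    have hs0 : 0 < s := by positivity
    have hlt : ∀ y : ℝ, |y| ≤ |d.1| + |d.2| → |s * y| < ε := by
      intro y hy
      rw [abs_mul, abs_of_pos hs0, hs]
      rw [div_mul_eq_mul_div, div_lt_iff₀ (by positivity)]
      nlinarith [abs_nonneg d.1, abs_nonneg d.2]
    have h1 : x + s • (-d.2, d.1) ∈ interior (segment ℝ a b) := hball (by
      rw [Metric.mem_ball, dist_eq_norm, add_sub_cancel_left, Prod.norm_def]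
      simp only [Prod.smul_fst, Prod.smul_snd, smul_eq_mul, Real.norm_eq_abs]
      rw [max_lt_iff]
      constructor
      · apply hlt; rw [abs_neg]; linarith [abs_nonneg d.1]
      · apply hlt; linarith [abs_nonneg d.2])
    have h2 := hsub (interior_subset h1)
    simp only [Set.mem_ofPred_eq, det2, Prod.fst_sub, Prod.snd_sub, Prod.fst_add, Prod.snd_add,
      Prod.smul_fst, Prod.smul_snd, smul_eq_mul] at hx1 h2
    nlinarith

/-- Reduction to points in convex position, in counterclockwise order. -/
theorem exists_ccw_reduction {n : ℕ} (q : Fin n → P) (hne : (Kp q).Nonempty) :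
    ∃ (m : ℕ) (q' : Fin m → P), 3 ≤ m ∧ m ≤ n ∧ Ccw q' ∧ ConvexIndependent ℝ q' ∧
      range q' ⊆ range q ∧ Kp q' = Kp q := by
  classical
  set E := (convexHull ℝ (range q)).extremePoints ℝ with hE
  have hsub : E ⊆ range q := extremePoints_convexHull_subset
  have hfin : E.Finite := (Set.finite_range q).subset hsub
  have hcomp : IsCompact (convexHull ℝ (range q)) := (Set.finite_range q).isCompact_convexHull ℝ
  have hKM : convexHull ℝ E = convexHull ℝ (range q) := by
    have h1 := closure_convexHull_extremePoints hcomp (convex_convexHull ℝ (range q))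
    rw [← h1]
    exact (hfin.isClosed_convexHull ℝ).closure_eq.symm
  have hCI : ConvexIndependent ℝ (fun p : E => (p : P)) :=
    (convex_convexHull ℝ (range q)).convexIndependent_extremePoints
  obtain ⟨m, ⟨e⟩⟩ : ∃ m, Nonempty (Fin m ≃ E) := by
    have := hfin.fintype
    exact ⟨Fintype.card E, ⟨(Fintype.equivFin E).symm⟩⟩
  have hCI' : ConvexIndependent ℝ (fun i : Fin m => ((e i : E) : P)) :=
    hCI.comp_embedding e.toEmbedding
  obtain ⟨σ, hσ⟩ := exists_ccw_of_ci hCI'
  set q' : Fin m → P := (fun i : Fin m => ((e i : E) : P)) ∘ σ with hq'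
  have hrange : range q' = E := by
    rw [hq', Set.range_comp, σ.surjective.range_eq, Set.image_univ]
    ext x; constructor
    · rintro ⟨i, rfl⟩; exact (e i).2
    · intro hx; exact ⟨e.symm ⟨x, hx⟩, by simp⟩
  have hK : Kp q' = Kp q := by
    unfold Kp; rw [hrange, hKM]
  have hinj : Function.Injective q' := hCI'.injective.comp σ.injective
  refine ⟨m, q', ?_, ?_, hσ, hCI'.comp_embedding σ.toEmbedding, by rw [hrange]; exact hsub, hK⟩
  · -- at least three points
    by_contra hcon
    push Not at hcon
    have hne' : (Kp q').Nonempty := by rw [hK]; exact hne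
    have hpair : ∃ a b : P, range q' ⊆ {a, b} := by
      interval_cases m
      · exact ⟨0, 0, by rintro _ ⟨i, rfl⟩; exact i.elim0⟩
      · exact ⟨q' 0, q' 0, by
          rintro _ ⟨i, rfl⟩
          rw [Subsingleton.elim i 0]; simp⟩
      · exact ⟨q' 0, q' 1, by
          rintro _ ⟨i, rfl⟩
          fin_cases i <;> simp⟩
    obtain ⟨a, b, hab⟩ := hpair
    have h1 : Kp q' ⊆ interior (convexHull ℝ {a, b}) :=
      interior_mono (convexHull_mono hab)
    rw [interior_hull_two] at h1
    exact Set.not_nonempty_empty (hne'.mono h1)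
  · have h1 : (Set.range q').ncard ≤ (Set.range q).ncard :=
      Set.ncard_le_ncard (by rw [hrange]; exact hsub) (Set.finite_range q)
    have h2 : (Set.range q').ncard = m := by
      rw [← Set.image_univ, Set.ncard_image_of_injective _ hinj, Set.ncard_univ]; simp
    have h3 : (Set.range q).ncard ≤ n := by
      rw [← Set.image_univ]
      refine le_trans (Set.ncard_image_le Set.finite_univ) ?_
      rw [Set.ncard_univ]; simp
    omega

end Pool.Agent.MP4eed4eP
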