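import Pool.Agent.Lib.MP_4eed4e_an_PG.GNorm

/-!
MP_4eed4e_an, project P, block G: continuity and uniqueness of the normal form.
-/

namespace Pool.Agent.MP4eed4eP.PG

open Set Filter Topology

theorem det2_rig (θ : ℝ) (b u v w : P) :
    det2 (rig θ b v - rig θ b u) (rig θ b w - rig θ b u) = det2 (v - u) (w - u) := by
  have hcs := Real.cos_sq_add_sin_sq θ
  simp only [det2, rig, Prod.fst_sub, Prod.snd_sub]
  linear_combination ((v.1 - u.1) * (w.2 - u.2) - (v.2 - u.2) * (w.1 - u.1)) * hcs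

theorem ccw_of_rig {n : ℕ} {q q' : Fin n → P} {θ : ℝ} {b : P} (h : ∀ i, q i = rig θ b (q' i))
    (hq : Ccw q) : Ccw q' := by
  intro i j k hij hjk
  have := hq i j k hij hjk
  rwa [h i, h j, h k, det2_rig] at this

theorem NF_spec {m : ℕ} {q : Fin (m + 3) → P} (hq : Ccw q) :
    NF q ∈ CM m ∧ Ccw (poly (NF q)) ∧ ∃ (θ : ℝ) (b : P), ∀ i, q i = rig θ b (poly (NF q) i) := by
  obtain ⟨θ, hθ⟩ := NF_rig (ccw_nDel hq) (fun j hj => (nXY_pos hq hj).ne')
  exact ⟨NF_mem hq, ccw_of_rig hθ hq, θ, q 1, hθ⟩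

theorem exists_normal {m : ℕ} (q : Fin (m + 3) → P) (hq : Ccw q) :
    ∃ c ∈ CM m, Ccw (poly c) ∧ ∃ (θ : ℝ) (b : P), ∀ i, q i = rig θ b (poly c i) :=
  ⟨NF q, (NF_spec hq).1, (NF_spec hq).2.1, (NF_spec hq).2.2⟩

theorem continuous_det2 {α : Type*} [TopologicalSpace α] {f g : α → P} (hf : Continuous f)
    (hg : Continuous g) : Continuous fun x => det2 (f x) (g x) := by
  unfold det2; fun_prop

theorem continuousAt_NF {m : ℕ} {q : Fin (m + 3) → P} (hd : 0 < nDel q)
    (hxy : ∀ j : Fin m, nX q (q ⟨j + 2, by omega⟩) + nY q (q ⟨j + 2, by omega⟩) ≠ 0) :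
    ContinuousAt (NF : (Fin (m + 3) → P) → Par m) q := by
  have hS : Continuous (nS : (Fin (m + 3) → P) → ℝ) := by
    unfold nS; fun_prop
  have hs0 := (nS_pos hd).ne'
  have hDel : Continuous fun q : Fin (m + 3) → P =>
      det2 (q 1 - q 0) (q (Fin.last _) - q 0) :=
    continuous_det2 (by fun_prop) (by fun_prop)
  have hD : ContinuousAt (nD : (Fin (m + 3) → P) → ℝ) q := by
    unfold nD
    exact ContinuousAt.div (by fun_prop) hS.continuousAt hs0
  have hE : ContinuousAt (nE : (Fin (m + 3) → P) → ℝ) q := by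
    unfold nE
    exact ContinuousAt.div (continuous_det2 (by fun_prop) (by fun_prop)).continuousAt
      hS.continuousAt hs0
  have hX : ∀ k : Fin (m + 3), ContinuousAt (fun q : Fin (m + 3) → P => nX q (q k)) q := by
    intro k
    unfold nX
    exact ContinuousAt.div (continuous_det2 (by fun_prop) (by fun_prop)).continuousAt
      hDel.continuousAt hd.ne'
  have hY : ∀ k : Fin (m + 3), ContinuousAt (fun q : Fin (m + 3) → P => nY q (q k)) q := by
    intro k
    unfold nY
    exact ContinuousAt.div (continuous_det2 (by fun_prop) (by fun_prop)).continuousAt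
      hDel.continuousAt hd.ne'
  rw [continuousAt_pi]
  rintro (i | (j | j))
  · fin_cases i
    · exact hS.continuousAt
    · exact ((continuousAt_const.mul hD).sub (continuousAt_const.mul hE))
    · exact ((continuousAt_const.mul hD).add (continuousAt_const.mul hE))
  · exact (hY _).div ((hX _).add (hY _)) (hxy j)
  · exact (hX _).add (hY _)

theorem ccw_continuousAt {m : ℕ} {q : Fin (m + 3) → P} (hq : Ccw q) :
    ContinuousAt (NF : (Fin (m + 3) → P) → Par m) q := by
  apply continuousAt_NF (ccw_nDel hq)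
  intro j
  have := (nXY_pos hq (j := (j : ℕ) + 1) (by omega)).ne'
  rw [vx_eq q (show (j : ℕ) + 1 + 1 < m + 3 by omega)] at this
  exact this

/-- Continuity of the normal form. -/
theorem normal_seq {m : ℕ} (q : ℕ → Fin (m + 3) → P) (q' : Fin (m + 3) → P) (hq' : Ccw q')
    (h : Tendsto q atTop (𝓝 q')) :
    ∃ (c : ℕ → Par m) (c' : Par m), c' ∈ CM m ∧ Ccw (poly c') ∧
      (∀ᶠ i in atTop, c i ∈ CM m ∧ Ccw (poly (c i)) ∧
        ∃ (θ : ℝ) (b : P), ∀ j, q i j = rig θ b (poly (c i) j)) ∧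
      (∃ (θ : ℝ) (b : P), ∀ j, q' j = rig θ b (poly c' j)) ∧ Tendsto c atTop (𝓝 c') := by
  refine ⟨fun i => NF (q i), NF q', (NF_spec hq').1, (NF_spec hq').2.1, ?_,
    (NF_spec hq').2.2, (ccw_continuousAt hq').tendsto.comp h⟩
  have : ∀ᶠ i in atTop, Ccw (q i) := h ((isOpen_Ccw (m + 3)).mem_nhds hq')
  filter_upwards [this] with i hi
  exact NF_spec hi

/-! ### Uniqueness -/

theorem tt_zero {m : ℕ} (c : Par m) : tt c 0 = 0 := by simp [tt]

theorem rr_zero {m : ℕ} (c : Par m) : rr c 0 = 1 := by simp [rr]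

theorem tt_last {m : ℕ} (c : Par m) : tt c (m + 1) = 1 := by
  unfold tt
  rw [dif_neg (by omega), if_neg (by omega)]

theorem rr_last {m : ℕ} (c : Par m) : rr c (m + 1) = 1 := by
  unfold rr
  rw [dif_neg (by omega)]

theorem poly_zero {m : ℕ} (c : Par m) : poly c 0 = pB c := by simp [poly]

theorem poly_one {m : ℕ} (c : Par m) : poly c 1 = 0 := by
  have : ((1 : Fin (m + 3)) : ℕ) = 1 := rfl
  simp [poly, this, vert, WW, tt_zero, rr_zero]

theorem poly_last {m : ℕ} (c : Par m) : poly c (Fin.last _) = pA c := by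
  have : ((Fin.last (m + 2) : Fin (m + 3)) : ℕ) = m + 2 := rfl
  simp [poly, this, vert, WW, tt_last, rr_last]

theorem poly_mid {m : ℕ} (c : Par m) (j : Fin m) :
    poly c ⟨j + 2, by omega⟩ = pB c + c (iR j) • ((1 - c (iT j)) • (-pB c) +
      c (iT j) • (pA c - pB c)) := by
  have e1 : tt c ((j : ℕ) + 1) = c (iT j) := by
    unfold tt
    rw [dif_pos ⟨by omega, by omega⟩]
    rfl
  have e2 : rr c ((j : ℕ) + 1) = c (iR j) := by
    unfold rr
    rw [dif_pos ⟨by omega, by omega⟩]
    rfl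
  simp only [poly]
  rw [if_neg (by omega), show (j : ℕ) + 2 - 1 = (j : ℕ) + 1 by omega, vert, WW, e1, e2]

theorem nDel_poly {m : ℕ} (c : Par m) :
    nDel (poly c) = c (iS m) / 2 * (c (iX m) - √3 * c (iY m)) := by
  unfold nDel
  rw [poly_zero, poly_one, poly_last]
  simp only [det2, pB, pA, Prod.fst_sub, Prod.snd_sub, Prod.fst_zero, Prod.snd_zero]
  ring

/-- The parameters of the normal form are unique. -/
theorem NF_poly {m : ℕ} {c : Par m} (hc : c ∈ CM m) : NF (poly c) = c := by
  obtain ⟨hs, hA, ht, hr⟩ := hc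
  have hd : 0 < nDel (poly c) := by rw [nDel_poly]; positivity
  have hS : nS (poly c) = c (iS m) := by
    unfold nS
    rw [poly_zero, poly_one]
    have : ((pB c).1 - (0 : P).1) ^ 2 + ((pB c).2 - (0 : P).2) ^ 2 = c (iS m) ^ 2 := by
      simp only [pB, Prod.fst_zero, Prod.snd_zero]
      linear_combination (c (iS m) ^ 2 / 4) * sqrt3_sq
    rw [this, Real.sqrt_sq hs.le]
  have hD : nD (poly c) = √3 / 2 * c (iX m) + 1 / 2 * c (iY m) := by
    unfold nD
    rw [hS, poly_zero, poly_one, poly_last, div_eq_iff hs.ne']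
    simp only [pB, pA, sub_zero]
    ring
  have hE : nE (poly c) = √3 / 2 * c (iY m) - 1 / 2 * c (iX m) := by
    unfold nE
    rw [hS, poly_zero, poly_one, poly_last, div_eq_iff hs.ne']
    simp only [pB, pA, sub_zero, det2]
    ring
  -- coordinates of the marked vertices
  have hX : ∀ j : Fin m, nX (poly c) (poly c ⟨j + 2, by omega⟩) =
      c (iR j) * (1 - c (iT j)) := by
    intro j
    unfold nX
    rw [div_eq_iff (show det2 (poly c 1 - poly c 0) (poly c (Fin.last _) - poly c 0) ≠ 0 from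
      hd.ne'), poly_mid, poly_zero, poly_one, poly_last]
    simp only [det2, Prod.fst_sub, Prod.snd_sub, Prod.fst_add, Prod.snd_add, Prod.smul_fst,
      Prod.smul_snd, smul_eq_mul, Prod.fst_neg, Prod.snd_neg, Prod.fst_zero, Prod.snd_zero]
    ring
  have hY : ∀ j : Fin m, nY (poly c) (poly c ⟨j + 2, by omega⟩) = c (iR j) * c (iT j) := by
    intro j
    unfold nY
    rw [div_eq_iff (show det2 (poly c 1 - poly c 0) (poly c (Fin.last _) - poly c 0) ≠ 0 from
      hd.ne'), poly_mid, poly_zero, poly_one, poly_last]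
    simp only [det2, Prod.fst_sub, Prod.snd_sub, Prod.fst_add, Prod.snd_add, Prod.smul_fst,
      Prod.smul_snd, smul_eq_mul, Prod.fst_neg, Prod.snd_neg, Prod.fst_zero, Prod.snd_zero]
    ring
  funext i
  rcases i with i | (j | j)
  · fin_cases i
    · exact hS
    · show √3 / 2 * nD (poly c) - 1 / 2 * nE (poly c) = c (iX m)
      rw [hD, hE]
      linear_combination (c (iX m) / 4) * sqrt3_sq
    · show 1 / 2 * nD (poly c) + √3 / 2 * nE (poly c) = c (iY m)
      rw [hD, hE]
      linear_combination (c (iY m) / 4) * sqrt3_sq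
  · have hrj := hr j
    show nY (poly c) (poly c ⟨j + 2, _⟩) / (nX (poly c) (poly c ⟨j + 2, _⟩) +
      nY (poly c) (poly c ⟨j + 2, _⟩)) = c (iT j)
    rw [hX, hY]
    have : c (iR j) * (1 - c (iT j)) + c (iR j) * c (iT j) = c (iR j) := by ring
    rw [this]
    field_simp
  · show nX (poly c) (poly c ⟨j + 2, _⟩) + nY (poly c) (poly c ⟨j + 2, _⟩) = c (iR j)
    rw [hX, hY]; ring

theorem continuous_poly {m : ℕ} : Continuous (poly : Par m → Fin (m + 3) → P) := by
  rw [continuous_pi_iff]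
  intro i
  have hB : Continuous (pB : Par m → P) := by unfold pB; fun_prop
  have hA : Continuous (pA : Par m → P) := by unfold pA; fun_prop
  have ht : ∀ j, Continuous fun c : Par m => tt c j := by
    intro j
    unfold tt
    split_ifs <;> fun_prop
  have hr : ∀ j, Continuous fun c : Par m => rr c j := by
    intro j
    unfold rr
    split_ifs <;> fun_prop
  unfold poly
  split_ifs with h
  · exact hB
  · have h1 := ht ((i : ℕ) - 1)
    have h2 := hr ((i : ℕ) - 1)
    unfold vert WW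
    fun_prop

/-- If polygons in normal form converge to a convex polygon, then the parameters converge. -/
theorem tendsto_par {m : ℕ} (c : ℕ → Par m) (hc : ∀ i, c i ∈ CM m) (q : Fin (m + 3) → P)
    (hq : Ccw q) (h : Tendsto (fun i => poly (c i)) atTop (𝓝 q)) :
    ∃ c' ∈ CM m, q = poly c' ∧ Tendsto c atTop (𝓝 c') := by
  have h1 : Tendsto c atTop (𝓝 (NF q)) := by
    have h2 := (ccw_continuousAt hq).tendsto.comp h
    have h3 : (NF ∘ fun i => poly (c i)) = c := by
      funext i; exact NF_poly (hc i)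
    rwa [h3] at h2
  refine ⟨NF q, NF_mem hq, ?_, h1⟩
  exact tendsto_nhds_unique h ((continuous_poly.tendsto (NF q)).comp h1)

end Pool.Agent.MP4eed4eP.PG
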