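import Pool.Agent.Lib.MP_4eed4e_an_PG.GLim
import Pool.Agent.Lib.MP_4eed4e_an_PG.GNorm2
import Pool.Agent.Lib.MP_4eed4e_an_P.OutD

/-!
MP_4eed4e_an, project P, block G: min-max values of polygons from those of the normal forms.
-/

namespace Pool.Agent.MP4eed4eP.PG

open Set Filter Topology MeasureTheory Metric

/-- Every nondegenerate polygon has the min-max values of a polygon in normal form. -/
theorem exists_Dom {n : ℕ} {q : Fin n → P} (h : (Kp q).Nonempty) :
    ∃ (m : ℕ) (c : Par m), c ∈ CM m ∧ ∀ k, lamL (Kp q) k = lamL (Dom c) k := by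
  obtain ⟨m, e, -, hccw, hK⟩ := exists_ccw q h
  obtain ⟨c, hc, hccw', θ, b, hrig⟩ := exists_normal (fun i => q (e i)) hccw
  refine ⟨m, c, hc, fun k => ?_⟩
  have hw : WCcw (poly c) := fun i j k hij hjk => (hccw' i j k hij hjk).le
  rw [← hK, Dom_eq hc hw]
  have h1 : (fun i => q (e i)) = fun i => rig θ b (poly c i) := funext hrig
  rw [h1, Kp_rig, lamL_rig]

theorem lamL_Kp_pos {n : ℕ} {q : Fin n → P} (h : (Kp q).Nonempty) (k : ℕ) :
    0 < lamL (Kp q) (k + 1) := by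
  obtain ⟨m, c, hc, he⟩ := exists_Dom h
  rw [he]; exact lamL_Dom_pos hc k

theorem lamL_Kp_mono {n : ℕ} {q : Fin n → P} (h : (Kp q).Nonempty) :
    Monotone (fun k => lamL (Kp q) k) := by
  obtain ⟨m, c, hc, he⟩ := exists_Dom h
  apply monotone_nat_of_le_succ
  intro k
  rcases Nat.eq_zero_or_pos k with h0 | h0
  · subst h0
    rw [lamL_zero]
    exact (lamL_Kp_pos h 0).le
  · obtain ⟨j, rfl⟩ : ∃ j, k = j + 1 := ⟨k - 1, by omega⟩
    rw [he, he]
    exact lamL_Dom_mono hc (Nat.le_succ j)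

theorem lamL_Kp_tendsto {n : ℕ} {q : Fin n → P} (h : (Kp q).Nonempty) :
    Tendsto (fun k => lamL (Kp q) k) atTop atTop := by
  obtain ⟨m, c, hc, he⟩ := exists_Dom h
  rw [← tendsto_add_atTop_iff_nat 1]
  simp_rw [he]
  exact lamL_Dom_tendsto hc

theorem summable_lamL_Kp {n : ℕ} {q : Fin n → P} (h : (Kp q).Nonempty) {a : ℕ} (ha : 1 ≤ a) :
    Summable (fun k => ((lamL (Kp q) (k + 1))⁻¹) ^ (2 * a)) := by
  obtain ⟨m, c, hc, he⟩ := exists_Dom h
  simp_rw [he]
  exact summable_lamL_Dom hc ha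

end Pool.Agent.MP4eed4eP.PG
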