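import Pool.Agent.Lib.MP_4eed4e_an_PG.GCcw

/-!
MP_4eed4e_an, project P, block G: the statements on the order of the vertices.
-/

namespace Pool.Agent.MP4eed4eP.PG

open Set Filter Topology

theorem convP_iff_ci {n : ℕ} (q : Fin n → P) : ConvP q ↔ ConvexIndependent ℝ q := by
  rw [convexIndependent_iff_notMem_convexHull_sdiff]
  constructor
  · intro h i s hmem
    refine h i (convexHull_mono (Set.image_mono ?_) hmem)
    rintro j ⟨_, hj⟩
    exact hj
  · intro h i hmem
    refine h i Set.univ (convexHull_mono (Set.image_mono ?_) hmem)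
    intro j hj
    exact ⟨Set.mem_univ _, hj⟩

theorem exists_ccw {n : ℕ} (q : Fin n → P) (hne : (Kp q).Nonempty) :
    ∃ (m : ℕ) (e : Fin (m + 3) → Fin n), Function.Injective e ∧ Ccw (fun i => q (e i)) ∧
      Kp (fun i => q (e i)) = Kp q := by
  obtain ⟨m', q', hm3, _, hccw, hci, hsub, hK⟩ := exists_ccw_reduction q hne
  obtain ⟨m, rfl⟩ : ∃ m, m' = m + 3 := ⟨m' - 3, by omega⟩
  choose e he using fun i => hsub (Set.mem_range_self i)
  have hq' : q' = fun i => q (e i) := by
    funext i; exact (he i).symm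
  refine ⟨m, e, ?_, by rw [← hq']; exact hccw, by rw [← hq']; exact hK⟩
  intro i j hij
  apply hci.injective
  rw [← he i, ← he j, hij]

theorem ccw_convP {m : ℕ} {q : Fin (m + 3) → P} (h : Ccw q) : ConvP q :=
  (convP_iff_ci q).2 (h.convexIndependent (by omega))

theorem ccw_nonempty {m : ℕ} {q : Fin (m + 3) → P} (h : Ccw q) : (Kp q).Nonempty :=
  h.Kp_nonempty' (by omega)

theorem exists_perm {m : ℕ} (q : Fin (m + 3) → P) (h : ConvP q) :
    ∃ e : Equiv.Perm (Fin (m + 3)), Ccw (fun i => q (e i)) := by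
  obtain ⟨σ, hσ⟩ := exists_ccw_of_ci ((convP_iff_ci q).1 h)
  exact ⟨σ, hσ⟩

theorem convP_perm {n : ℕ} (q : Fin n → P) (e : Equiv.Perm (Fin n)) :
    ConvP (fun i => q (e i)) ↔ ConvP q := by
  rw [convP_iff_ci, convP_iff_ci]
  constructor
  · intro h
    have := h.comp_embedding e.symm.toEmbedding
    have h2 : ((fun i => q (e i)) ∘ (e.symm.toEmbedding : Fin n → Fin n)) = q := by
      funext i; simp
    rwa [h2] at this
  · intro h
    exact h.comp_embedding e.toEmbedding

theorem Kp_perm {n : ℕ} (q : Fin n → P) (e : Equiv.Perm (Fin n)) :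
    Kp (fun i => q (e i)) = Kp q := by
  unfold Kp
  congr 2
  ext x; constructor
  · rintro ⟨i, rfl⟩; exact ⟨e i, rfl⟩
  · rintro ⟨i, rfl⟩; exact ⟨e.symm i, by simp⟩

theorem isOpen_Ccw (n : ℕ) : IsOpen {q : Fin n → P | Ccw q} := by
  have h : {q : Fin n → P | Ccw q} = ⋂ (i : Fin n), ⋂ (j : Fin n), ⋂ (k : Fin n),
      {q : Fin n → P | i < j → j < k → 0 < det2 (q j - q i) (q k - q i)} := by
    ext q; simp [Ccw]
  rw [h]
  refine isOpen_iInter_of_finite fun i => isOpen_iInter_of_finite fun j =>
    isOpen_iInter_of_finite fun k => ?_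
  by_cases hij : i < j
  · by_cases hjk : j < k
    · have : {q : Fin n → P | i < j → j < k → 0 < det2 (q j - q i) (q k - q i)} =
          {q : Fin n → P | 0 < det2 (q j - q i) (q k - q i)} := by
        ext q; simp [hij, hjk]
      rw [this]
      apply isOpen_lt continuous_const
      unfold det2; fun_prop
    · have : {q : Fin n → P | i < j → j < k → 0 < det2 (q j - q i) (q k - q i)} = univ := by
        ext q; simp [hjk]
      rw [this]; exact isOpen_univ
  · have : {q : Fin n → P | i < j → j < k → 0 < det2 (q j - q i) (q k - q i)} = univ := by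
      ext q; simp [hij]
    rw [this]; exact isOpen_univ

theorem isOpen_ConvP (m : ℕ) : IsOpen {q : Fin (m + 3) → P | ConvP q} := by
  have h : {q : Fin (m + 3) → P | ConvP q} = ⋃ (e : Equiv.Perm (Fin (m + 3))),
      {q : Fin (m + 3) → P | Ccw (fun i => q (e i))} := by
    ext q
    simp only [Set.mem_ofPred_eq, Set.mem_iUnion]
    constructor
    · exact exists_perm q
    · rintro ⟨e, he⟩
      exact (convP_perm q e).1 (ccw_convP he)
  rw [h]
  refine isOpen_iUnion fun e => ?_
  have hc : Continuous fun q : Fin (m + 3) → P => fun i => q (e i) := by fun_prop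
  exact (isOpen_Ccw (m + 3)).preimage hc

end Pool.Agent.MP4eed4eP.PG
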