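import Pool.Agent.Lib.MP_4eed4e_an_PG.GClose
import Pool.Agent.Lib.MP_4eed4e_an_PG.GOrd2

/-!
MP_4eed4e_an, project P, block G: compactness of sets of polygons with bounded eigenvalues.
-/

namespace Pool.Agent.MP4eed4eP.PG

open Set Filter Topology MeasureTheory Metric

theorem InStrip.mono {D : Set P} {w w' : ℝ} (h : InStrip D w) (hw : w ≤ w') : InStrip D w' := by
  obtain ⟨a, b, c, hab, hs⟩ := h
  exact ⟨a, b, c, hab, fun v hv => ⟨(hs v hv).1, by linarith [(hs v hv).2]⟩⟩

/-- If a polygon is degenerate then its vertices are on a line. -/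
theorem exists_line {n : ℕ} (q : Fin n → P) (hne : ¬ (Kp q).Nonempty) :
    ∃ a b c : ℝ, a ^ 2 + b ^ 2 = 1 ∧ ∀ j, a * (q j).1 + b * (q j).2 = c := by
  rcases Nat.eq_zero_or_pos n with h0 | h0
  · subst h0
    exact ⟨1, 0, 0, by norm_num, fun j => j.elim0⟩
  set z : Fin n := ⟨0, h0⟩ with hz
  have hdet : ∀ j k, det2 (q j - q z) (q k - q z) ≤ 0 := by
    intro j k
    by_contra hcon
    push Not at hcon
    apply hne
    have hccw : Ccw ![q z, q j, q k] := by
      intro i1 i2 i3 h12 h23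
      have e1 : i1 = 0 := by
        have := i3.2; apply Fin.ext; simp only [Fin.lt_def] at h12 h23; simp; omega
      have e2 : i2 = 1 := by
        have := i3.2; apply Fin.ext; simp only [Fin.lt_def] at h12 h23; simp; omega
      have e3 : i3 = 2 := by
        have := i3.2; apply Fin.ext; simp only [Fin.lt_def] at h12 h23; simp; omega
      subst e1; subst e2; subst e3
      exact hcon
    have h1 := ccw_nonempty (m := 0) hccw
    refine h1.mono (interior_mono (convexHull_mono ?_))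
    rintro _ ⟨i, rfl⟩
    fin_cases i
    · exact ⟨z, rfl⟩
    · exact ⟨j, rfl⟩
    · exact ⟨k, rfl⟩
  have hdet0 : ∀ j k, det2 (q j - q z) (q k - q z) = 0 := by
    intro j k
    have h1 := hdet j k
    have h2 := hdet k j
    have h3 : det2 (q k - q z) (q j - q z) = -det2 (q j - q z) (q k - q z) := by
      unfold det2; ring
    linarith
  by_cases hall : ∀ j, q j = q z
  · exact ⟨1, 0, (q z).1, by norm_num, fun j => by rw [hall j]; ring⟩
  · push Not at hall
    obtain ⟨j, hj⟩ := hall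
    set d := q j - q z with hd
    have hd0 : d ≠ 0 := sub_ne_zero.2 hj
    have hpos : 0 < d.1 ^ 2 + d.2 ^ 2 := by
      by_contra hcon
      push Not at hcon
      apply hd0
      ext
      · simp only [Prod.fst_zero]; nlinarith [sq_nonneg d.1, sq_nonneg d.2]
      · simp only [Prod.snd_zero]; nlinarith [sq_nonneg d.1, sq_nonneg d.2]
    set N := Real.sqrt (d.1 ^ 2 + d.2 ^ 2) with hN
    have hN0 : 0 < N := Real.sqrt_pos.2 hpos
    have hN2 : N ^ 2 = d.1 ^ 2 + d.2 ^ 2 := Real.sq_sqrt hpos.le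
    refine ⟨-d.2 / N, d.1 / N, -d.2 / N * (q z).1 + d.1 / N * (q z).2, ?_, fun k => ?_⟩
    · rw [div_pow, div_pow, neg_sq, ← add_div, hN2, add_comm]
      exact div_self hpos.ne'
    · have h1 := hdet0 j k
      rw [← hd] at h1
      simp only [det2, Prod.fst_sub, Prod.snd_sub] at h1
      field_simp
      linarith

theorem bounded_Kp {n : ℕ} (q : Fin n → P) : Bornology.IsBounded (Kp q) :=
  (((Set.finite_range q).isCompact_convexHull ℝ).isBounded).subset interior_subset

theorem mem_closure_Kp {n : ℕ} {q : Fin n → P} (hne : (Kp q).Nonempty) (j : Fin n) :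
    q j ∈ closure (Kp q) := by
  have h1 : closure (interior (convexHull ℝ (range q))) = closure (convexHull ℝ (range q)) :=
    (convex_convexHull ℝ (range q)).closure_interior_eq_closure_of_nonempty_interior hne
  unfold Kp
  rw [h1]
  exact subset_closure (subset_convexHull ℝ _ ⟨j, rfl⟩)

theorem dist_le_diam_Kp {n : ℕ} {q : Fin n → P} (hne : (Kp q).Nonempty) (i j : Fin n) :
    dist (q i) (q j) ≤ diam (Kp q) := by
  rw [← Metric.diam_closure]
  exact dist_le_diam_of_mem (bounded_Kp q).closure (mem_closure_Kp hne i) (mem_closure_Kp hne j)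

/-- Polygons close to a degenerate one lie in thin strips. -/
theorem inStrip_close {n : ℕ} (q' : Fin n → P) (hdeg : ¬ (Kp q').Nonempty) (q : Fin n → P) :
    InStrip (Kp q) (4 * ‖q - q'‖) := by
  obtain ⟨a, b, c, hab, hline⟩ := exists_line q' hdeg
  set ε := ‖q - q'‖ with hε
  have hε0 : 0 ≤ ε := norm_nonneg _
  refine ⟨a, b, c - 2 * ε, hab, ?_⟩
  have ha : |a| ≤ 1 := by
    rw [abs_le]; constructor <;> nlinarith [sq_nonneg a, sq_nonneg b]
  have hb : |b| ≤ 1 := by
    rw [abs_le]; constructor <;> nlinarith [sq_nonneg a, sq_nonneg b]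
  have hC : Convex ℝ {v : P | c - 2 * ε ≤ a * v.1 + b * v.2 ∧
      a * v.1 + b * v.2 ≤ c - 2 * ε + 4 * ε} := by
    intro x hx y hy s t hs ht hst
    simp only [Set.mem_ofPred_eq, Prod.fst_add, Prod.snd_add, Prod.smul_fst, Prod.smul_snd,
      smul_eq_mul] at *
    obtain ⟨hx1, hx2⟩ := hx
    obtain ⟨hy1, hy2⟩ := hy
    have hs' : s = 1 - t := by linarith
    subst hs'
    have e1 := mul_le_mul_of_nonneg_left hx1 hs
    have e2 := mul_le_mul_of_nonneg_left hy1 ht
    have e3 := mul_le_mul_of_nonneg_left hx2 hs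
    have e4 := mul_le_mul_of_nonneg_left hy2 ht
    constructor <;> nlinarith
  have hsub : range q ⊆ {v : P | c - 2 * ε ≤ a * v.1 + b * v.2 ∧
      a * v.1 + b * v.2 ≤ c - 2 * ε + 4 * ε} := by
    rintro _ ⟨j, rfl⟩
    have h1 : ‖q j - q' j‖ ≤ ε := norm_le_pi_norm (q - q') j
    have h2 : |(q j).1 - (q' j).1| ≤ ε := by
      refine le_trans ?_ h1
      rw [Prod.norm_def, Real.norm_eq_abs, Real.norm_eq_abs]
      exact le_max_left _ _
    have h3 : |(q j).2 - (q' j).2| ≤ ε := by
      refine le_trans ?_ h1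
      rw [Prod.norm_def, Real.norm_eq_abs, Real.norm_eq_abs]
      exact le_max_right _ _
    have h4 : |a * ((q j).1 - (q' j).1) + b * ((q j).2 - (q' j).2)| ≤ 2 * ε := by
      refine le_trans (abs_add_le _ _) ?_
      rw [abs_mul, abs_mul]
      have e1 : |a| * |(q j).1 - (q' j).1| ≤ 1 * ε := mul_le_mul ha h2 (abs_nonneg _) (by norm_num)
      have e2 : |b| * |(q j).2 - (q' j).2| ≤ 1 * ε := mul_le_mul hb h3 (abs_nonneg _) (by norm_num)
      linarith
    have h5 := abs_le.1 h4
    have h6 := hline j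
    simp only [Set.mem_ofPred_eq]
    constructor <;> nlinarith
  intro v hv
  have h1 := convexHull_min hsub hC (interior_subset hv)
  exact h1

/-- Compactness. -/
theorem exists_limit {n : ℕ} (i₀ : Fin n) (l : ℕ → ℝ) (h1 : 0 < l 1)
    (hl : Tendsto l atTop atTop) (q : ℕ → Fin n → P) (hne : ∀ i, (Kp (q i)).Nonempty)
    (h0 : ∀ i, q i i₀ = 0)
    (hlim : ∀ k, Tendsto (fun i => lamL (Kp (q i)) k) atTop (𝓝 (l k))) :
    ∃ (φ : ℕ → ℕ) (q' : Fin n → P), StrictMono φ ∧ Tendsto (fun i => q (φ i)) atTop (𝓝 q') ∧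
      (Kp q').Nonempty ∧ ∀ k, lamL (Kp q') k = l k := by
  set w := 1 / (2 * Real.sqrt (2 * l 1)) with hw
  have hsq : 0 < Real.sqrt (2 * l 1) := Real.sqrt_pos.2 (by linarith)
  have hsq2 : Real.sqrt (2 * l 1) ^ 2 = 2 * l 1 := Real.sq_sqrt (by linarith)
  have hw0 : 0 < w := by positivity
  have hw2 : 1 / w ^ 2 = 8 * l 1 := by
    rw [hw, div_pow, one_pow, one_div_one_div, mul_pow, hsq2]; ring
  -- not in a strip of width w
  have ev1 : ∀ᶠ i in atTop, ¬ InStrip (Kp (q i)) w := by
    have : ∀ᶠ i in atTop, lamL (Kp (q i)) 1 < 2 * l 1 :=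
      (hlim 1).eventually (gt_mem_nhds (by linarith))
    filter_upwards [this] with i hi hs
    have h2 := lamL_strip (isOpen_Kp (q i)) (hne i) hw0 hs 0
    rw [hw2, zero_add] at h2
    linarith
  -- the diameter is bounded
  obtain ⟨k, hk⟩ : ∃ k, 32 / (w / 64) ^ 2 + 1 ≤ l (k + 1) := by
    have h2 := (tendsto_add_atTop_iff_nat 1).2 hl
    exact (h2.eventually_ge_atTop _).exists
  have ev2 : ∀ᶠ i in atTop, diam (Kp (q i)) < ((k + 1 : ℕ) : ℝ) * w := by
    have : ∀ᶠ i in atTop, 32 / (w / 64) ^ 2 < lamL (Kp (q i)) (k + 1) :=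
      (hlim (k + 1)).eventually (lt_mem_nhds (by linarith))
    filter_upwards [this, ev1] with i hi hs
    by_contra hcon
    push Not at hcon
    have hc : Convex ℝ (Kp (q i)) := (convex_convexHull ℝ _).interior
    have h2 := exists_balls (isOpen_Kp (q i)) hc (hne i) (bounded_Kp _) hw0 hs
      (k := k + 1) (by omega) hcon
    have h3 := lamL_balls (by positivity) h2
    linarith
  have ev3 : ∀ᶠ i in atTop, q i ∈ closedBall (0 : Fin n → P) (((k + 1 : ℕ) : ℝ) * w) := by
    filter_upwards [ev2] with i hi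
    rw [mem_closedBall, dist_zero_right, pi_norm_le_iff_of_nonneg (by positivity)]
    intro j
    have h2 := dist_le_diam_Kp (hne i) j i₀
    rw [h0 i, dist_zero_right] at h2
    linarith
  obtain ⟨q', -, φ, hφ, hconv⟩ :=
    tendsto_subseq_of_frequently_bounded isBounded_closedBall ev3.frequently
  have hconv' : Tendsto (fun i => q (φ i)) atTop (𝓝 q') := hconv
  have hnorm : Tendsto (fun i => ‖q (φ i) - q'‖) atTop (𝓝 0) := by
    have h2 := (hconv'.sub_const q').norm
    rwa [sub_self, norm_zero] at h2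
  have hK : (Kp q').Nonempty := by
    by_contra hdeg
    have h2 : ∀ᶠ i in atTop, ¬ InStrip (Kp (q (φ i))) w := hφ.tendsto_atTop.eventually ev1
    have h3 : ∀ᶠ i in atTop, 4 * ‖q (φ i) - q'‖ < w := by
      have h4 := hnorm.const_mul 4
      rw [mul_zero] at h4
      exact h4.eventually (gt_mem_nhds hw0)
    obtain ⟨i, hi2, hi3⟩ := (h2.and h3).exists
    exact hi2 (InStrip.mono (inStrip_close q' hdeg (q (φ i))) hi3.le)
  refine ⟨φ, q', hφ, hconv', hK, fun k => ?_⟩
  obtain ⟨C, δ, hC, hδ, hclose⟩ := lamL_close q' hK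
  have hT : Tendsto (fun i => lamL (Kp (q (φ i))) k) atTop (𝓝 (lamL (Kp q') k)) := by
    rw [tendsto_iff_norm_sub_tendsto_zero]
    have h2 : ∀ᶠ i in atTop, ‖q (φ i) - q'‖ ≤ δ :=
      hnorm.eventually (ge_mem_nhds hδ)
    have h3 : Tendsto (fun i => C * ‖q (φ i) - q'‖ * lamL (Kp q') k) atTop (𝓝 0) := by
      have := (hnorm.const_mul C).mul_const (lamL (Kp q') k)
      rwa [mul_zero, zero_mul] at this
    refine squeeze_zero' (Eventually.of_forall fun i => norm_nonneg _) ?_ h3
    filter_upwards [h2] with i hi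
    rw [Real.norm_eq_abs]
    exact (hclose (q (φ i)) hi).2 k
  exact tendsto_nhds_unique hT ((hlim k).comp hφ.tendsto_atTop)

end Pool.Agent.MP4eed4eP.PG
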