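import Pool.Agent.Lib.MP_4eed4e_an_PG.GOrd2

/-!
MP_4eed4e_an, project P, block G: the normal form of a polygon.
-/

namespace Pool.Agent.MP4eed4eP.PG

open Set Filter Topology

noncomputable section

/-- The length of the side `q 0, q 1`. -/
def nS {m : ℕ} (q : Fin (m + 3) → P) : ℝ :=
  √(((q 0).1 - (q 1).1) ^ 2 + ((q 0).2 - (q 1).2) ^ 2)

/-- First coordinate with respect to the basis `q 1 - q 0, q last - q 0`. -/
def nX {m : ℕ} (q : Fin (m + 3) → P) (w : P) : ℝ :=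
  det2 (w - q 0) (q (Fin.last _) - q 0) / det2 (q 1 - q 0) (q (Fin.last _) - q 0)

/-- Second coordinate. -/
def nY {m : ℕ} (q : Fin (m + 3) → P) (w : P) : ℝ :=
  det2 (q 1 - q 0) (w - q 0) / det2 (q 1 - q 0) (q (Fin.last _) - q 0)

/-- Scalar product of `u = (q 0 - q 1) / s` and `q last - q 1`. -/
def nD {m : ℕ} (q : Fin (m + 3) → P) : ℝ :=
  ((q 0 - q 1).1 * (q (Fin.last _) - q 1).1 + (q 0 - q 1).2 * (q (Fin.last _) - q 1).2) / nS q

/-- Determinant of `u` and `q last - q 1`. -/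
def nE {m : ℕ} (q : Fin (m + 3) → P) : ℝ := det2 (q 0 - q 1) (q (Fin.last _) - q 1) / nS q

/-- The parameters of the normal form. -/
def NF {m : ℕ} (q : Fin (m + 3) → P) : Par m :=
  Sum.elim ![nS q, √3 / 2 * nD q - 1 / 2 * nE q, 1 / 2 * nD q + √3 / 2 * nE q]
    (Sum.elim
      (fun j => nY q (q ⟨j + 2, by omega⟩) /
        (nX q (q ⟨j + 2, by omega⟩) + nY q (q ⟨j + 2, by omega⟩)))
      (fun j => nX q (q ⟨j + 2, by omega⟩) + nY q (q ⟨j + 2, by omega⟩)))

theorem NF_S {m : ℕ} (q : Fin (m + 3) → P) : NF q (iS m) = nS q := rfl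

theorem NF_X {m : ℕ} (q : Fin (m + 3) → P) :
    NF q (iX m) = √3 / 2 * nD q - 1 / 2 * nE q := rfl

theorem NF_Y {m : ℕ} (q : Fin (m + 3) → P) :
    NF q (iY m) = 1 / 2 * nD q + √3 / 2 * nE q := rfl

theorem NF_T {m : ℕ} (q : Fin (m + 3) → P) (j : Fin m) :
    NF q (iT j) = nY q (q ⟨j + 2, by omega⟩) /
        (nX q (q ⟨j + 2, by omega⟩) + nY q (q ⟨j + 2, by omega⟩)) := rfl

theorem NF_R {m : ℕ} (q : Fin (m + 3) → P) (j : Fin m) :
    NF q (iR j) = nX q (q ⟨j + 2, by omega⟩) + nY q (q ⟨j + 2, by omega⟩) := rfl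

theorem sqrt3_sq : (√3 : ℝ) * √3 = 3 := Real.mul_self_sqrt (by norm_num)

/-- The determinant which must not vanish. -/
def nDel {m : ℕ} (q : Fin (m + 3) → P) : ℝ := det2 (q 1 - q 0) (q (Fin.last _) - q 0)

theorem ccw_nDel {m : ℕ} {q : Fin (m + 3) → P} (hq : Ccw q) : 0 < nDel q :=
  hq 0 1 (Fin.last _) (by simp [Fin.lt_def]) (by simp [Fin.lt_def, Fin.last])

theorem nX_nY {m : ℕ} {q : Fin (m + 3) → P} (hq : 0 < nDel q) (w : P) :
    w - q 0 = nX q w • (q 1 - q 0) + nY q w • (q (Fin.last _) - q 0) := by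
  have h := det2_combo (q 1 - q 0) (w - q 0) (q (Fin.last _) - q 0)
  have h0 : det2 (q 1 - q 0) (q (Fin.last _) - q 0) ≠ 0 := hq.ne'
  have h2 : w - q 0 = (det2 (q 1 - q 0) (q (Fin.last _) - q 0))⁻¹ •
      (det2 (q 1 - q 0) (q (Fin.last _) - q 0) • (w - q 0)) := by
    rw [smul_smul, inv_mul_cancel₀ h0, one_smul]
  rw [h2, h, smul_add, smul_smul, smul_smul, nX, nY]
  congr 2 <;> ring

theorem nX_one {m : ℕ} {q : Fin (m + 3) → P} (hq : 0 < nDel q) : nX q (q 1) = 1 :=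
  div_self hq.ne'

theorem nY_one {m : ℕ} (q : Fin (m + 3) → P) : nY q (q 1) = 0 := by
  unfold nY det2; rw [mul_comm ((q 1 - q 0).1), sub_self, zero_div]

theorem nX_last {m : ℕ} (q : Fin (m + 3) → P) : nX q (q (Fin.last _)) = 0 := by
  unfold nX
  have : det2 (q (Fin.last _) - q 0) (q (Fin.last _) - q 0) = 0 := by unfold det2; ring
  rw [this, zero_div]

theorem nY_last {m : ℕ} {q : Fin (m + 3) → P} (hq : 0 < nDel q) :
    nY q (q (Fin.last _)) = 1 := div_self hq.ne'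

/-- The vertex with index `j + 1`. -/
def vx {m : ℕ} (q : Fin (m + 3) → P) (j : ℕ) : P := if h : j + 1 < m + 3 then q ⟨j + 1, h⟩ else 0

theorem vx_eq {m : ℕ} (q : Fin (m + 3) → P) {j : ℕ} (h : j + 1 < m + 3) :
    vx q j = q ⟨j + 1, h⟩ := by simp [vx, h]

theorem vx_zero {m : ℕ} (q : Fin (m + 3) → P) : vx q 0 = q 1 := by
  rw [vx_eq q (by omega)]; rfl

theorem vx_last {m : ℕ} (q : Fin (m + 3) → P) : vx q (m + 1) = q (Fin.last _) := by
  rw [vx_eq q (by omega)]; rfl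

theorem rr_NF {m : ℕ} {q : Fin (m + 3) → P} (hq : 0 < nDel q) {j : ℕ} (hj : j ≤ m + 1) :
    rr (NF q) j = nX q (vx q j) + nY q (vx q j) := by
  unfold rr
  split_ifs with h
  · rw [NF_R, vx_eq q (by omega)]
    have : (⟨((⟨j - 1, by omega⟩ : Fin m) : ℕ) + 2, by simp; omega⟩ : Fin (m + 3)) =
        ⟨j + 1, by omega⟩ := by
      apply Fin.ext; simp; omega
    rw [this]
  · rcases (show j = 0 ∨ j = m + 1 by omega) with h0 | h0
    · subst h0; rw [vx_zero, nX_one hq, nY_one, add_zero]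
    · subst h0; rw [vx_last, nX_last, nY_last hq, zero_add]

theorem tt_NF {m : ℕ} {q : Fin (m + 3) → P} (hq : 0 < nDel q) {j : ℕ} (hj : j ≤ m + 1) :
    tt (NF q) j = nY q (vx q j) / (nX q (vx q j) + nY q (vx q j)) := by
  unfold tt
  split_ifs with h h0
  · rw [NF_T, vx_eq q (by omega)]
    have : (⟨((⟨j - 1, by omega⟩ : Fin m) : ℕ) + 2, by simp; omega⟩ : Fin (m + 3)) =
        ⟨j + 1, by omega⟩ := by
      apply Fin.ext; simp; omega
    rw [this]
  · subst h0; rw [vx_zero, nY_one, zero_div]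
  · have h1 : j = m + 1 := by omega
    subst h1; rw [vx_last, nX_last, nY_last hq, zero_add, div_one]

/-- `X_j > 0` for `j ≤ m`. -/
theorem nX_pos {m : ℕ} {q : Fin (m + 3) → P} (hq : Ccw q) {j : ℕ} (hj : j ≤ m) :
    0 < nX q (vx q j) := by
  apply div_pos _ (ccw_nDel hq)
  rw [vx_eq q (by omega)]
  exact hq 0 ⟨j + 1, by omega⟩ (Fin.last _) (by simp [Fin.lt_def]) (by simp [Fin.lt_def]; omega)

theorem nY_pos {m : ℕ} {q : Fin (m + 3) → P} (hq : Ccw q) {j : ℕ} (h1 : 1 ≤ j)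
    (hj : j ≤ m + 1) : 0 < nY q (vx q j) := by
  apply div_pos _ (ccw_nDel hq)
  rw [vx_eq q (by omega)]
  exact hq 0 1 ⟨j + 1, by omega⟩ (by simp [Fin.lt_def]) (by simp [Fin.lt_def]; omega)

theorem nXY_pos {m : ℕ} {q : Fin (m + 3) → P} (hq : Ccw q) {j : ℕ} (hj : j ≤ m + 1) :
    0 < nX q (vx q j) + nY q (vx q j) := by
  rcases Nat.eq_zero_or_pos j with h0 | h0
  · subst h0; rw [vx_zero, nX_one (ccw_nDel hq), nY_one]; norm_num
  · rcases (show j ≤ m ∨ j = m + 1 by omega) with h1 | h1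
    · exact add_pos (nX_pos hq h1) (nY_pos hq h0 hj)
    · subst h1; rw [vx_last, nX_last, nY_last (ccw_nDel hq)]; norm_num

theorem nS_sq {m : ℕ} (q : Fin (m + 3) → P) :
    nS q * nS q = ((q 0).1 - (q 1).1) ^ 2 + ((q 0).2 - (q 1).2) ^ 2 :=
  Real.mul_self_sqrt (by positivity)

theorem nS_pos {m : ℕ} {q : Fin (m + 3) → P} (hq : 0 < nDel q) : 0 < nS q := by
  apply Real.sqrt_pos.2
  by_contra hcon
  push Not at hcon
  have h1 : (q 0).1 - (q 1).1 = 0 := by
    nlinarith [sq_nonneg ((q 0).1 - (q 1).1), sq_nonneg ((q 0).2 - (q 1).2)]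
  have h2 : (q 0).2 - (q 1).2 = 0 := by
    nlinarith [sq_nonneg ((q 0).1 - (q 1).1), sq_nonneg ((q 0).2 - (q 1).2)]
  unfold nDel det2 at hq
  simp only [Prod.fst_sub, Prod.snd_sub] at hq
  have h3 : (q 1).1 - (q 0).1 = 0 := by linarith
  have h4 : (q 1).2 - (q 0).2 = 0 := by linarith
  rw [h3, h4] at hq
  simp at hq

theorem NF_mem {m : ℕ} {q : Fin (m + 3) → P} (hq : Ccw q) : NF q ∈ CM m := by
  have hd := ccw_nDel hq
  have hs := nS_pos hd
  refine ⟨by rw [NF_S]; exact hs, ?_, ?_, ?_⟩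
  · rw [NF_X, NF_Y]
    have h1 : √3 / 2 * nD q - 1 / 2 * nE q - √3 * (1 / 2 * nD q + √3 / 2 * nE q) =
        -2 * nE q := by
      linear_combination (-1 / 2 * nE q) * sqrt3_sq
    rw [h1]
    have h2 : nE q = -(nDel q) / nS q := by
      unfold nE nDel det2
      congr 1
      simp only [Prod.fst_sub, Prod.snd_sub]; ring
    rw [h2]
    have : 0 < nDel q / nS q := div_pos hd hs
    have e : -2 * (-nDel q / nS q) = 2 * (nDel q / nS q) := by ring
    rw [e]; linarith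
  · intro j hj
    rw [tt_NF hd (by omega), tt_NF hd (by omega), div_lt_div_iff₀ (nXY_pos hq (by omega))
      (nXY_pos hq (by omega))]
    -- orientation of the vertices 0, j+1, j+2
    have h1 : 0 < det2 (vx q j - q 0) (vx q (j + 1) - q 0) := by
      rw [vx_eq q (show j + 1 < m + 3 by omega), vx_eq q (show j + 1 + 1 < m + 3 by omega)]
      exact hq 0 ⟨j + 1, by omega⟩ ⟨j + 1 + 1, by omega⟩ (by simp [Fin.lt_def])
        (by simp [Fin.lt_def])
    have h2 := nX_nY hd (vx q j)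
    have h3 := nX_nY hd (vx q (j + 1))
    have h4 : det2 (vx q j - q 0) (vx q (j + 1) - q 0) =
        (nX q (vx q j) * nY q (vx q (j + 1)) - nY q (vx q j) * nX q (vx q (j + 1))) *
          nDel q := by
      rw [h2, h3]
      simp only [nDel, det2, Prod.fst_add, Prod.snd_add, Prod.smul_fst, Prod.smul_snd,
        smul_eq_mul]
      ring
    rw [h4] at h1
    have h5 := pos_of_mul_pos_of_pos_right h1 hd
    nlinarith
  · intro i
    rw [NF_R]
    have := nXY_pos hq (j := (i : ℕ) + 1) (by omega)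
    rw [vx_eq q (show (i : ℕ) + 1 + 1 < m + 3 by omega)] at this
    exact this
  where
    pos_of_mul_pos_of_pos_right {a b : ℝ} (h : 0 < a * b) (hb : 0 < b) : 0 < a := by
      by_contra hcon
      push Not at hcon
      nlinarith

/-- The normal form is congruent to the polygon. -/
theorem NF_rig {m : ℕ} {q : Fin (m + 3) → P} (hd : 0 < nDel q)
    (hxy : ∀ j ≤ m + 1, nX q (vx q j) + nY q (vx q j) ≠ 0) :
    ∃ θ : ℝ, ∀ i, q i = rig θ (q 1) (poly (NF q) i) := by
  have hs := nS_pos hd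
  set C := (√3 / 2 * ((q 0).1 - (q 1).1) + 1 / 2 * ((q 0).2 - (q 1).2)) / nS q with hC
  set S := (√3 / 2 * ((q 0).2 - (q 1).2) - 1 / 2 * ((q 0).1 - (q 1).1)) / nS q with hS
  have hCS : C ^ 2 + S ^ 2 = 1 := by
    rw [hC, hS, div_pow, div_pow, ← add_div, div_eq_one_iff_eq (by positivity)]
    have := nS_sq q
    rw [sq (nS q), this]
    linear_combination ((((q 0).1 - (q 1).1) ^ 2 + ((q 0).2 - (q 1).2) ^ 2) / 4) * sqrt3_sq
  obtain ⟨θ, hc, hsn⟩ : ∃ θ : ℝ, Real.cos θ = C ∧ Real.sin θ = S := by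
    have hn : ‖(⟨C, S⟩ : ℂ)‖ = 1 := by
      rw [Complex.norm_def, Complex.normSq_mk]
      rw [show C * C + S * S = 1 by rw [← hCS]; ring, Real.sqrt_one]
    have h0 : (⟨C, S⟩ : ℂ) ≠ 0 := by
      intro h; rw [h, norm_zero] at hn; exact zero_ne_one hn
    refine ⟨Complex.arg ⟨C, S⟩, ?_, ?_⟩
    · rw [Complex.cos_arg h0, hn, div_one]
    · rw [Complex.sin_arg, hn, div_one]
  refine ⟨θ, ?_⟩
  have hCs : C * nS q = √3 / 2 * ((q 0).1 - (q 1).1) + 1 / 2 * ((q 0).2 - (q 1).2) := by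
    rw [hC]; field_simp
  have hSs : S * nS q = √3 / 2 * ((q 0).2 - (q 1).2) - 1 / 2 * ((q 0).1 - (q 1).1) := by
    rw [hS]; field_simp
  -- image of `pB`
  have hB1 : C * (pB (NF q)).1 - S * (pB (NF q)).2 = (q 0).1 - (q 1).1 := by
    simp only [pB, NF_S]
    linear_combination (√3 / 2) * hCs - (1 / 2) * hSs +
      (((q 0).1 - (q 1).1) / 4) * sqrt3_sq
  have hB2 : S * (pB (NF q)).1 + C * (pB (NF q)).2 = (q 0).2 - (q 1).2 := by
    simp only [pB, NF_S]
    linear_combination (√3 / 2) * hSs + (1 / 2) * hCs +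
      (((q 0).2 - (q 1).2) / 4) * sqrt3_sq
  -- image of `pA`
  have hDs : nD q * nS q = (q 0 - q 1).1 * (q (Fin.last _) - q 1).1 +
      (q 0 - q 1).2 * (q (Fin.last _) - q 1).2 := by
    unfold nD; field_simp
  have hEs : nE q * nS q = det2 (q 0 - q 1) (q (Fin.last _) - q 1) := by
    unfold nE; field_simp
  have hss := nS_sq q
  have hA1 : C * (pA (NF q)).1 - S * (pA (NF q)).2 = (q (Fin.last _)).1 - (q 1).1 := by
    have h2 : (C * (pA (NF q)).1 - S * (pA (NF q)).2) * (nS q * nS q) =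
        ((q (Fin.last _)).1 - (q 1).1) * (nS q * nS q) := by
      have e : (C * (pA (NF q)).1 - S * (pA (NF q)).2) * (nS q * nS q) =
          (C * nS q) * (√3 / 2 * (nD q * nS q) - 1 / 2 * (nE q * nS q)) -
          (S * nS q) * (1 / 2 * (nD q * nS q) + √3 / 2 * (nE q * nS q)) := by
        simp only [pA, NF_X, NF_Y]; ring
      rw [e, hCs, hSs, hDs, hEs, hss]
      simp only [det2, Prod.fst_sub, Prod.snd_sub]
      linear_combination ((((q (Fin.last _)).1 - (q 1).1) *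
        (((q 0).1 - (q 1).1) ^ 2 + ((q 0).2 - (q 1).2) ^ 2)) / 4) * sqrt3_sq
    exact mul_right_cancel₀ (by positivity) h2
  have hA2 : S * (pA (NF q)).1 + C * (pA (NF q)).2 = (q (Fin.last _)).2 - (q 1).2 := by
    have h2 : (S * (pA (NF q)).1 + C * (pA (NF q)).2) * (nS q * nS q) =
        ((q (Fin.last _)).2 - (q 1).2) * (nS q * nS q) := by
      have e : (S * (pA (NF q)).1 + C * (pA (NF q)).2) * (nS q * nS q) =
          (S * nS q) * (√3 / 2 * (nD q * nS q) - 1 / 2 * (nE q * nS q)) +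
          (C * nS q) * (1 / 2 * (nD q * nS q) + √3 / 2 * (nE q * nS q)) := by
        simp only [pA, NF_X, NF_Y]; ring
      rw [e, hCs, hSs, hDs, hEs, hss]
      simp only [det2, Prod.fst_sub, Prod.snd_sub]
      linear_combination ((((q (Fin.last _)).2 - (q 1).2) *
        (((q 0).1 - (q 1).1) ^ 2 + ((q 0).2 - (q 1).2) ^ 2)) / 4) * sqrt3_sq
    exact mul_right_cancel₀ (by positivity) h2
  intro i
  by_cases hi : (i : ℕ) = 0
  · have hi' : i = 0 := Fin.ext hi
    subst hi'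
    ext
    · simp only [rig, poly, Fin.val_zero, if_true, hc, hsn]; linarith
    · simp only [rig, poly, Fin.val_zero, if_true, hc, hsn]; linarith
  · obtain ⟨j, hj, hjm⟩ : ∃ j : ℕ, (i : ℕ) = j + 1 ∧ j ≤ m + 1 :=
      ⟨(i : ℕ) - 1, by omega, by omega⟩
    have hvx : q i = vx q j := by
      rw [vx_eq q (by omega)]; congr 1; exact Fin.ext hj
    have hpoly : poly (NF q) i = pB (NF q) + (nX q (vx q j) • (-pB (NF q)) +
        nY q (vx q j) • (pA (NF q) - pB (NF q))) := by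
      have e1 : poly (NF q) i = vert (NF q) j := by
        simp only [poly, hi, if_false]; congr 1; omega
      rw [e1, vert, WW, rr_NF hd hjm, tt_NF hd hjm, smul_add, smul_smul, smul_smul]
      have hne := hxy j hjm
      have h1 : (nX q (vx q j) + nY q (vx q j)) *
          (1 - nY q (vx q j) / (nX q (vx q j) + nY q (vx q j))) = nX q (vx q j) := by
        field_simp; ring
      have h2 : (nX q (vx q j) + nY q (vx q j)) *
          (nY q (vx q j) / (nX q (vx q j) + nY q (vx q j))) = nY q (vx q j) := by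
        field_simp
      rw [h1, h2]
    have hW := nX_nY hd (vx q j)
    have hW1 := congrArg Prod.fst hW
    have hW2 := congrArg Prod.snd hW
    simp only [Prod.fst_sub, Prod.snd_sub, Prod.fst_add, Prod.snd_add, Prod.smul_fst,
      Prod.smul_snd, smul_eq_mul] at hW1 hW2
    rw [hvx, hpoly]
    ext
    · simp only [rig, hc, hsn, Prod.fst_sub, Prod.snd_sub, Prod.fst_add, Prod.snd_add,
        Prod.smul_fst, Prod.smul_snd, smul_eq_mul, Prod.fst_neg, Prod.snd_neg]
      linear_combination hW1 + (nX q (vx q j) + nY q (vx q j) - 1) * hB1 - nY q (vx q j) * hA1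
    · simp only [rig, hc, hsn, Prod.fst_sub, Prod.snd_sub, Prod.fst_add, Prod.snd_add,
        Prod.smul_fst, Prod.smul_snd, smul_eq_mul, Prod.fst_neg, Prod.snd_neg]
      linear_combination hW2 + (nX q (vx q j) + nY q (vx q j) - 1) * hB2 - nY q (vx q j) * hA2

end

end Pool.Agent.MP4eed4eP.PG
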