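import Pool.Agent.Lib.MP_4eed4e_an_P.PBase

/-!
MP_4eed4e_an, project P, block G: points in convex position can be ordered counterclockwise.
-/

namespace Pool.Agent.MP4eed4eP

open Set

/-- The open right half plane with the positive vertical axis. -/
def HP (v : P) : Prop := 0 < v.1 ∨ (v.1 = 0 ∧ 0 < v.2)

/-- The key for the order by angle. -/
noncomputable def akey (v : P) : ℝ := v.2 / (|v.1| + |v.2|)

theorem HP.nonneg {v : P} (hv : HP v) : 0 ≤ v.1 := by
  rcases hv with h | h
  · exact h.le
  · exact h.1.ge

theorem akey_lt {v w : P} (hv : HP v) (hw : HP w) (h : akey v < akey w) : 0 < det2 v w := by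
  unfold akey at h
  unfold det2
  have hv1 : 0 ≤ v.1 := hv.nonneg
  have hw1 : 0 ≤ w.1 := hw.nonneg
  have hv0 : 0 < |v.1| + |v.2| := by
    rcases hv with h1 | h1
    · have := abs_pos.2 h1.ne'; positivity
    · have := abs_pos.2 h1.2.ne'; positivity
  have hw0 : 0 < |w.1| + |w.2| := by
    rcases hw with h1 | h1
    · have := abs_pos.2 h1.ne'; positivity
    · have := abs_pos.2 h1.2.ne'; positivity
  rw [div_lt_div_iff₀ hv0 hw0, abs_of_nonneg hv1, abs_of_nonneg hw1] at h
  rcases le_or_gt 0 v.2 with h2 | h2 <;> rcases le_or_gt 0 w.2 with h3 | h3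
  · rw [abs_of_nonneg h2, abs_of_nonneg h3] at h; nlinarith
  · rw [abs_of_nonneg h2, abs_of_neg h3] at h; nlinarith
  · rw [abs_of_neg h2, abs_of_nonneg h3] at h
    have hw' : 0 < w.1 ∨ 0 < w.2 := by
      rcases hw with h4 | h4
      · exact Or.inl h4
      · exact Or.inr h4.2
    have hv' : 0 < v.1 := by
      rcases hv with h4 | h4
      · exact h4
      · linarith [h4.2]
    rcases hw' with h4 | h4
    · nlinarith [mul_pos h4 (neg_pos.2 h2), mul_nonneg hv1 h3]
    · nlinarith [mul_pos hv' h4, mul_nonneg (neg_pos.2 h2).le hw1]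
  · rw [abs_of_neg h2, abs_of_neg h3] at h; nlinarith

theorem akey_eq {v w : P} (hv : HP v) (hw : HP w) (h : akey v = akey w) :
    ∃ t : ℝ, 0 < t ∧ w = t • v := by
  unfold akey at h
  have hv1 : 0 ≤ v.1 := hv.nonneg
  have hw1 : 0 ≤ w.1 := hw.nonneg
  have hv0 : 0 < |v.1| + |v.2| := by
    rcases hv with h1 | h1
    · have := abs_pos.2 h1.ne'; positivity
    · have := abs_pos.2 h1.2.ne'; positivity
  have hw0 : 0 < |w.1| + |w.2| := by
    rcases hw with h1 | h1
    · have := abs_pos.2 h1.ne'; positivity
    · have := abs_pos.2 h1.2.ne'; positivity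
  refine ⟨(|w.1| + |w.2|) / (|v.1| + |v.2|), by positivity, ?_⟩
  rw [div_eq_div_iff hv0.ne' hw0.ne'] at h
  have h2 : w.2 = (|w.1| + |w.2|) / (|v.1| + |v.2|) * v.2 := by
    field_simp; linarith
  have h3 : |w.2| = (|w.1| + |w.2|) / (|v.1| + |v.2|) * |v.2| := by
    conv_lhs => rw [h2]
    rw [abs_mul, abs_of_pos (by positivity)]
  have h4 : |w.1| = (|w.1| + |w.2|) / (|v.1| + |v.2|) * |v.1| := by
    have : (|w.1| + |w.2|) / (|v.1| + |v.2|) * (|v.1| + |v.2|) = |w.1| + |w.2| := by
      field_simp
    linarith
  rw [abs_of_nonneg hw1, abs_of_nonneg hv1] at h4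
  ext
  · simp only [Prod.smul_fst, smul_eq_mul]
    rw [abs_of_nonneg hw1, abs_of_nonneg hv1]; exact h4
  · simp only [Prod.smul_snd, smul_eq_mul]; exact h2

theorem det2_combo (u v w : P) : det2 u w • v = det2 v w • u + det2 u v • w := by
  unfold det2
  ext
  · simp only [Prod.smul_fst, Prod.fst_add, smul_eq_mul]; ring
  · simp only [Prod.smul_snd, Prod.snd_add, smul_eq_mul]; ring

/-- Points in convex position can be ordered counterclockwise. -/
theorem exists_ccw_of_ci {n : ℕ} {q : Fin n → P} (hq : ConvexIndependent ℝ q) :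
    ∃ σ : Equiv.Perm (Fin n), Ccw (q ∘ σ) := by
  rcases Nat.eq_zero_or_pos n with h0 | hn
  · subst h0
    exact ⟨1, fun i => i.elim0⟩
  have : Nonempty (Fin n) := ⟨⟨0, hn⟩⟩
  have hinj := hq.injective
  -- lexicographic minimum
  obtain ⟨i₀, hi₀⟩ : ∃ i₀ : Fin n, ∀ i, toLex (q i₀) ≤ toLex (q i) :=
    Finite.exists_min fun i => toLex (q i)
  have hHP : ∀ i, i ≠ i₀ → HP (q i - q i₀) := by
    intro i hi
    have h1 : toLex (q i₀) < toLex (q i) :=
      lt_of_le_of_ne (hi₀ i) fun h => hi (hinj (toLex.injective h)).symm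
    rw [Prod.Lex.toLex_lt_toLex] at h1
    unfold HP
    rcases h1 with h1 | ⟨h1, h2⟩
    · left; simp only [Prod.fst_sub]; linarith
    · right; simp only [Prod.fst_sub, Prod.snd_sub]; constructor <;> linarith
  -- the key
  set key : Fin n → ℝ := fun i => if i = i₀ then -2 else akey (q i - q i₀) with hkey
  have hge : ∀ v : P, -1 ≤ akey v := by
    intro v
    unfold akey
    rcases (add_nonneg (abs_nonneg v.1) (abs_nonneg v.2)).eq_or_lt with h | h
    · rw [← h]; simp
    · rw [le_div_iff₀ h]
      have := neg_abs_le v.2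
      have := abs_nonneg v.1
      linarith
  have hkinj : Function.Injective key := by
    intro i j hij
    simp only [hkey] at hij
    by_cases hi : i = i₀ <;> by_cases hj : j = i₀
    · rw [hi, hj]
    · rw [if_pos hi, if_neg hj] at hij
      have := hge (q j - q i₀); linarith
    · rw [if_neg hi, if_pos hj] at hij
      have := hge (q i - q i₀); linarith
    · rw [if_neg hi, if_neg hj] at hij
      by_contra hne
      obtain ⟨t, ht, hte⟩ := akey_eq (hHP i hi) (hHP j hj) hij
      -- `q i₀, q i, q j` are on one ray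
      rcases le_total t 1 with ht1 | ht1
      · -- `q j` is between
        have h2 : q j ∈ convexHull ℝ (q '' {i₀, i}) := by
          have h3 : q j = (1 - t) • q i₀ + t • q i := by
            have : q j = q i₀ + t • (q i - q i₀) := by rw [← hte]; abel
            rw [this, smul_sub, sub_smul, one_smul]; abel
          rw [h3]
          exact (convex_convexHull ℝ (q '' {i₀, i}))
            (subset_convexHull ℝ _ (Set.mem_image_of_mem q (by simp)))
            (subset_convexHull ℝ _ (Set.mem_image_of_mem q (by simp)))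
            (by linarith) ht.le (by ring)
        have h4 := hq _ _ h2
        simp only [Set.mem_insert_iff, Set.mem_singleton_iff] at h4
        rcases h4 with h4 | h4
        · exact hj h4
        · exact hne h4.symm
      · have h2 : q i ∈ convexHull ℝ (q '' {i₀, j}) := by
          have h3 : q i = (1 - t⁻¹) • q i₀ + t⁻¹ • q j := by
            have : q i - q i₀ = t⁻¹ • (q j - q i₀) := by
              rw [hte, smul_smul, inv_mul_cancel₀ ht.ne', one_smul]
            have h5 : q i = q i₀ + t⁻¹ • (q j - q i₀) := by rw [← this]; abel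
            rw [h5, smul_sub, sub_smul, one_smul]; abel
          rw [h3]
          exact (convex_convexHull ℝ (q '' {i₀, j}))
            (subset_convexHull ℝ _ (Set.mem_image_of_mem q (by simp)))
            (subset_convexHull ℝ _ (Set.mem_image_of_mem q (by simp)))
            (by have := inv_le_one_of_one_le₀ ht1; linarith) (by positivity) (by ring)
        have h4 := hq _ _ h2
        simp only [Set.mem_insert_iff, Set.mem_singleton_iff] at h4
        rcases h4 with h4 | h4
        · exact hi h4
        · exact hne h4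
  refine ⟨Tuple.sort key, ?_⟩
  have hmono : StrictMono (key ∘ Tuple.sort key) :=
    (Tuple.monotone_sort key).strictMono_of_injective
      (hkinj.comp (Tuple.sort key).injective)
  set σ := Tuple.sort key with hσ
  intro i j k hij hjk
  have h1 : key (σ i) < key (σ j) := hmono hij
  have h2 : key (σ j) < key (σ k) := hmono hjk
  have hmin : ∀ l, key i₀ ≤ key l := by
    intro l
    simp only [hkey, if_true]
    split_ifs
    · exact le_refl _
    · have := hge (q l - q i₀); linarith
  have hj : σ j ≠ i₀ := fun h => by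
    rw [h] at h1; exact absurd (hmin (σ i)) (not_le.2 h1)
  have hk : σ k ≠ i₀ := fun h => by
    rw [h] at h2; exact absurd (hmin (σ j)) (not_le.2 h2)
  have hdjk : 0 < det2 (q (σ j) - q i₀) (q (σ k) - q i₀) := by
    simp only [hkey, if_neg hj, if_neg hk] at h2
    exact akey_lt (hHP _ hj) (hHP _ hk) h2
  by_cases hi : σ i = i₀
  · simp only [Function.comp, hi]; exact hdjk
  · have hdij : 0 < det2 (q (σ i) - q i₀) (q (σ j) - q i₀) := by
      simp only [hkey, if_neg hj, if_neg hi] at h1
      exact akey_lt (hHP _ hi) (hHP _ hj) h1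
    have hdik : 0 < det2 (q (σ i) - q i₀) (q (σ k) - q i₀) := by
      have h3 := h1.trans h2
      simp only [hkey, if_neg hi, if_neg hk] at h3
      exact akey_lt (hHP _ hi) (hHP _ hk) h3
    by_contra hcon
    push Not at hcon
    simp only [Function.comp] at hcon
    set ui := q (σ i) - q i₀ with hui
    set uj := q (σ j) - q i₀ with huj
    set uk := q (σ k) - q i₀ with huk
    have hle : det2 uj uk + det2 ui uj ≤ det2 ui uk := by
      have e : det2 (q (σ j) - q (σ i)) (q (σ k) - q (σ i)) =
          det2 uj uk + det2 ui uj - det2 ui uk := by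
        simp only [det2, hui, huj, huk, Prod.fst_sub, Prod.snd_sub]; ring
      linarith
    set x := det2 uj uk / det2 ui uk with hx
    set y := det2 ui uj / det2 ui uk with hy
    have hx0 : 0 ≤ x := by positivity
    have hy0 : 0 ≤ y := by positivity
    have hxy : x + y ≤ 1 := by
      rw [hx, hy, ← add_div, div_le_one hdik]; exact hle
    have hcomb : uj = x • ui + y • uk := by
      have h3 := det2_combo ui uj uk
      have h4 : uj = (det2 ui uk)⁻¹ • (det2 ui uk • uj) := by
        rw [smul_smul, inv_mul_cancel₀ hdik.ne', one_smul]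
      rw [h4, h3, smul_add, smul_smul, smul_smul, hx, hy]
      congr 2 <;> ring
    have hmem : q (σ j) ∈ convexHull ℝ (q '' {i₀, σ i, σ k}) := by
      have h3 : q (σ j) = (1 - (x + y)) • q i₀ + (x • q (σ i) + y • q (σ k)) := by
        have : q (σ j) = q i₀ + uj := by rw [huj]; abel
        rw [this, hcomb, hui, huk]
        module
      rw [h3]
      have hs : ∑ l ∈ (Finset.univ : Finset (Fin 3)),
          (![1 - (x + y), x, y] l) • (![q i₀, q (σ i), q (σ k)] l) =
          (1 - (x + y)) • q i₀ + (x • q (σ i) + y • q (σ k)) := by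
        simp [Fin.sum_univ_three, add_assoc]
      rw [← hs]
      refine (convex_convexHull ℝ _).sum_mem ?_ ?_ ?_
      · intro l _
        fin_cases l <;> simp <;> linarith
      · simp only [Fin.sum_univ_three, Matrix.cons_val_zero, Matrix.cons_val_one,
          Matrix.cons_val]
        ring
      · intro l _
        apply subset_convexHull
        fin_cases l
        · exact ⟨i₀, by simp, rfl⟩
        · exact ⟨σ i, by simp, rfl⟩
        · exact ⟨σ k, by simp, rfl⟩
    have h4 := hq _ _ hmem
    simp only [Set.mem_insert_iff, Set.mem_singleton_iff] at h4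
    rcases h4 with h4 | h4 | h4
    · exact hj h4
    · rw [h4] at h1; exact lt_irrefl _ h1
    · rw [h4] at h2; exact lt_irrefl _ h2

end Pool.Agent.MP4eed4eP
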